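import Mathlib
import Pool.Agent.Work.MP_2d1b31_co.Defs

set_option autoImplicit false

/-! Graphs embedded in finite projective planes (Mathlib's `Configuration.ProjectivePlane`). FIXED
definitions. -/

namespace Pool.Agent.SC4.FP

/-- There is a projective plane of order `m`. -/
def PlaneOrder (m : ℕ) : Prop :=
  ∃ (P L : Type) (_ : Fintype P) (_ : Fintype L) (_ : Membership P L)
    (_ : Configuration.ProjectivePlane P L), Configuration.ProjectivePlane.order P L = m

/-- `G` is embedded in a projective plane of order `m`: the vertex `u` is the point `pt u` and the
line `ln u`; different vertices are different points and different lines; adjacent vertices are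
incident. -/
def PlaneEmb {V : Type} (G : SimpleGraph V) (m : ℕ) : Prop :=
  ∃ (P L : Type) (_ : Fintype P) (_ : Fintype L) (_ : Membership P L)
    (_ : Configuration.ProjectivePlane P L) (pt : V → P) (ln : V → L),
    Configuration.ProjectivePlane.order P L = m ∧ Function.Injective pt ∧ Function.Injective ln ∧
      ∀ u v, G.Adj u v → pt u ∈ ln v

end Pool.Agent.SC4.FP
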