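import Mathlib

set_option autoImplicit false

/-
MODULE FP/Mix (size M). Incidences between a set A of points and a set B of lines of a projective plane
of order m; v = m^2 + m + 1 points and lines (card_points, card_lines), every point on m + 1 lines
(lineCount_eq), two different points on exactly one common line.
c(l) = number of points of A on l. sum_l c(l) = (m+1)|A|, sum_l c(l)^2 = number of triples
(p, p', l) with p, p' in A on l = (m+1)|A| + |A|(|A|-1) = m|A| + |A|^2. With mu = (m+1)|A|/v: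
sum_l (c(l) - mu) = 0, T := sum_l (c(l) - mu)^2 = m|A| + |A|^2 - (m+1)^2|A|^2/v = m|A|(v - |A|)/v
(v - (m+1)^2 = -m). S = sum_{l in B} (c(l) - mu) = - sum_{l notin B} (c(l) - mu). Cauchy-Schwarz:
S^2 <= |B| T_B and S^2 <= (v - |B|) T_{B^c}, T_B + T_{B^c} = T; multiply the first by v - |B|, the second
by |B| and add: v S^2 <= |B|(v - |B|) T. So v^2 S^2 <= m|A||B|(v-|A|)(v-|B|), and v S = v I - (m+1)|A||B|.
-/

namespace Pool.Agent.SC4.FP

open Classical in
private theorem mix_one (P L : Type) [Fintype P] [Fintype L] [Membership P L]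
    [Configuration.ProjectivePlane P L] (p : P) :
    ∑ l : L, (if p ∈ l then (1 : ℝ) else 0) =
      (Configuration.ProjectivePlane.order P L : ℝ) + 1 := by
  have h := Configuration.ProjectivePlane.lineCount_eq (P := P) L p
  unfold Configuration.lineCount at h
  rw [Nat.card_eq_fintype_card, Fintype.card_subtype] at h
  rw [Finset.sum_boole]
  exact_mod_cast h

open Classical in
private theorem mix_two (P L : Type) [Fintype P] [Fintype L] [Membership P L]
    [Configuration.ProjectivePlane P L] (p p' : P) :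
    ∑ l : L, (if p ∈ l then (1 : ℝ) else 0) * (if p' ∈ l then (1 : ℝ) else 0) =
      (if p = p' then (Configuration.ProjectivePlane.order P L : ℝ) else 0) + 1 := by
  by_cases h : p = p'
  · subst h
    rw [if_pos rfl, ← mix_one P L p]
    refine Finset.sum_congr rfl fun l _ => ?_
    by_cases hl : p ∈ l <;> simp [hl]
  · rw [if_neg h, zero_add]
    obtain ⟨l0, hl0, hu⟩ := Configuration.HasLines.existsUnique_line P L p p' h
    rw [Finset.sum_eq_single l0]
    · rw [if_pos hl0.1, if_pos hl0.2, one_mul]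
    · intro l _ hne
      by_cases h1 : p ∈ l
      · by_cases h2 : p' ∈ l
        · exact absurd (hu l ⟨h1, h2⟩) hne
        · simp [h2]
      · simp [h1]
    · intro h1
      exact absurd (Finset.mem_univ _) h1

open Classical in
theorem mix (P L : Type) [Fintype P] [Fintype L] [Membership P L]
    [Configuration.ProjectivePlane P L] (m : ℕ)
    (hm : Configuration.ProjectivePlane.order P L = m) (A : Finset P) (B : Finset L) :
    (((m : ℝ) ^ 2 + m + 1) * (∑ l ∈ B, ((A.filter (fun p : P => p ∈ l)).card : ℝ)) -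
        (m + 1) * A.card * B.card) ^ 2 ≤
      m * A.card * B.card * ((m : ℝ) ^ 2 + m + 1 - A.card) * ((m : ℝ) ^ 2 + m + 1 - B.card) := by
  have hL : (Fintype.card L : ℝ) = (m : ℝ) ^ 2 + m + 1 := by
    have h := Configuration.ProjectivePlane.card_lines P L
    rw [hm] at h
    rw [h]
    push_cast
    ring
  set v : ℝ := (m : ℝ) ^ 2 + m + 1 with hv
  have hv0 : 0 < v := by positivity
  have hc : ∀ l : L, ((A.filter (fun p : P => p ∈ l)).card : ℝ) =
      ∑ p ∈ A, (if p ∈ l then (1 : ℝ) else 0) := fun l => by rw [Finset.sum_boole]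
  have h1 : ∑ l : L, ((A.filter (fun p : P => p ∈ l)).card : ℝ) = (m + 1) * A.card := by
    simp only [hc]
    rw [Finset.sum_comm]
    simp only [mix_one, hm]
    rw [Finset.sum_const, nsmul_eq_mul]
    ring
  have h2 : ∑ l : L, ((A.filter (fun p : P => p ∈ l)).card : ℝ) ^ 2 =
      m * A.card + (A.card : ℝ) ^ 2 := by
    have h3 : ∀ l : L, ((A.filter (fun p : P => p ∈ l)).card : ℝ) ^ 2 =
        ∑ p ∈ A, ∑ p' ∈ A, (if p ∈ l then (1 : ℝ) else 0) * (if p' ∈ l then (1 : ℝ) else 0) := by
      intro l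
      rw [hc, sq, Finset.sum_mul_sum]
    simp only [h3]
    rw [Finset.sum_comm]
    have h4 : ∀ p ∈ A, ∑ l : L, ∑ p' ∈ A, (if p ∈ l then (1 : ℝ) else 0) *
        (if p' ∈ l then (1 : ℝ) else 0) = m + A.card := by
      intro p hp
      rw [Finset.sum_comm]
      simp only [mix_two, hm]
      rw [Finset.sum_add_distrib, Finset.sum_ite_eq, if_pos hp, Finset.sum_const, nsmul_eq_mul,
        mul_one]
    rw [Finset.sum_congr rfl h4, Finset.sum_const, nsmul_eq_mul]
    ring
  set f : L → ℝ := fun l => v * ((A.filter (fun p : P => p ∈ l)).card : ℝ) - (m + 1) * A.card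
    with hf
  have hf0 : ∑ l : L, f l = 0 := by
    simp only [hf]
    rw [Finset.sum_sub_distrib, ← Finset.mul_sum, h1, Finset.sum_const, nsmul_eq_mul,
      Finset.card_univ, hL]
    ring
  have hf2 : ∑ l : L, f l ^ 2 = v * (m * A.card * (v - A.card)) := by
    have h3 : ∀ l : L, f l ^ 2 = v ^ 2 * ((A.filter (fun p : P => p ∈ l)).card : ℝ) ^ 2 -
        2 * v * ((m + 1) * A.card) * ((A.filter (fun p : P => p ∈ l)).card : ℝ) +
        ((m + 1) * A.card) ^ 2 := by
      intro l
      simp only [hf]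
      ring
    simp only [h3]
    rw [Finset.sum_add_distrib, Finset.sum_sub_distrib, ← Finset.mul_sum, ← Finset.mul_sum, h1,
      h2, Finset.sum_const, nsmul_eq_mul, Finset.card_univ, hL]
    have h5 : v = ((m : ℝ) + 1) ^ 2 - m := by rw [hv]; ring
    have h6 : ((m : ℝ) + 1) ^ 2 = v + m := by rw [h5]; ring
    have h7 : v ^ 2 * (m * (A.card : ℝ) + (A.card : ℝ) ^ 2) -
        2 * v * ((m + 1) * A.card) * ((m + 1) * A.card) + v * ((m + 1) * A.card) ^ 2 =
        v ^ 2 * (m * (A.card : ℝ) + (A.card : ℝ) ^ 2) -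
          v * ((m : ℝ) + 1) ^ 2 * (A.card : ℝ) ^ 2 := by
      ring
    rw [h7, h6]
    ring
  have hS : v * (∑ l ∈ B, ((A.filter (fun p : P => p ∈ l)).card : ℝ)) -
      (m + 1) * A.card * B.card = ∑ l ∈ B, f l := by
    simp only [hf]
    rw [Finset.sum_sub_distrib, ← Finset.mul_sum, Finset.sum_const, nsmul_eq_mul]
    ring
  rw [hS]
  have hcs1 : (∑ l ∈ B, f l) ^ 2 ≤ (B.card : ℝ) * ∑ l ∈ B, f l ^ 2 := sq_sum_le_card_mul_sum_sq
  have hcs2 : (∑ l ∈ Bᶜ, f l) ^ 2 ≤ (Bᶜ.card : ℝ) * ∑ l ∈ Bᶜ, f l ^ 2 :=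
    sq_sum_le_card_mul_sum_sq
  have hadd := Finset.sum_add_sum_compl B f
  have hadd2 := Finset.sum_add_sum_compl B (fun l => f l ^ 2)
  rw [hf0] at hadd
  rw [hf2] at hadd2
  have hBc : (Bᶜ.card : ℝ) = v - B.card := by
    have h3 := Finset.card_add_card_compl B
    have h4 : (B.card : ℝ) + (Bᶜ.card : ℝ) = Fintype.card L := by exact_mod_cast h3
    rw [hL] at h4
    linarith
  rw [hBc] at hcs2
  have hB0 : (0 : ℝ) ≤ B.card := Nat.cast_nonneg _
  have hB1 : 0 ≤ v - B.card := by rw [← hBc]; exact Nat.cast_nonneg _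
  generalize ∑ l ∈ B, f l = S at *
  have hS' : ∑ l ∈ Bᶜ, f l = -S := by linarith
  rw [hS', neg_sq] at hcs2
  generalize ∑ l ∈ B, f l ^ 2 = T1 at *
  generalize ∑ l ∈ Bᶜ, f l ^ 2 = T2 at *
  have h8 : v * S ^ 2 ≤ v * (m * A.card * B.card * (v - A.card) * (v - B.card)) := by
    calc v * S ^ 2 = (v - B.card) * S ^ 2 + B.card * S ^ 2 := by ring
      _ ≤ (v - B.card) * (B.card * T1) + B.card * ((v - B.card) * T2) :=
          add_le_add (mul_le_mul_of_nonneg_left hcs1 hB1) (mul_le_mul_of_nonneg_left hcs2 hB0)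
      _ = B.card * (v - B.card) * (T1 + T2) := by ring
      _ = v * (m * A.card * B.card * (v - A.card) * (v - B.card)) := by rw [hadd2]; ring
  exact le_of_mul_le_mul_left h8 hv0

end Pool.Agent.SC4.FP
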