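import Mathlib
import Pool.Agent.Work.MP_2d1b31_co.FP.Defs
import Pool.Agent.Work.MP_2d1b31_co.FP.Mix

set_option autoImplicit false

/-
MODULE FP/IncF (size S-M). Cites mix. A = image of pt, B = image of ln, |A| = |B| = N <= v = m^2+m+1
(card_points). I = sum_{l in B} |A cap l| = sum_v #{u : pt u on ln v} >= sum_v deg v >= d N. If
d v <= (m+1) N the third claim is trivial. Otherwise N (d v - (m+1) N) <= v I - (m+1) N^2 and mix gives
N^2 (d v - (m+1)N)^2 <= m N^2 (v - N)^2, so d v - (m+1) N <= sqrt m (v - N).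
2 <= m: one_lt_order.
(c4f): an embedded graph has no 4-cycle: two different points are on at most one common line
(Configuration.Nondegenerate.eq_or_eq).
-/

namespace Pool.Agent.SC4.FP

theorem c4f {V : Type} {G : SimpleGraph V} {m : ℕ} (hG : PlaneEmb G m) : C4Free G := by
  obtain ⟨P, L, _, _, _, _, pt, ln, _, hpt, hln, hadj⟩ := hG
  intro u v w z huv h1 h2 h3 h4
  rcases Configuration.Nondegenerate.eq_or_eq (hadj u w h1) (hadj v w h2) (hadj u z h3)
    (hadj v z h4) with h | h
  · exact absurd (hpt h) huv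
  · exact hln h

open Classical in
theorem incF {V : Type} [Fintype V] [Nonempty V] {G : SimpleGraph V} {m : ℕ} (hG : PlaneEmb G m)
    (d : ℕ) (hdeg : ∀ v, d ≤ G.degree v) :
    2 ≤ m ∧ PlaneOrder m ∧ Fintype.card V ≤ m ^ 2 + m + 1 ∧
      (d : ℝ) * ((m : ℝ) ^ 2 + m + 1) ≤
        (m + 1) * Fintype.card V + Real.sqrt m * ((m : ℝ) ^ 2 + m + 1 - Fintype.card V) := by
  obtain ⟨P, L, iP, iL, iM, iPP, pt, ln, hm, hpt, hln, hadj⟩ := hG
  have hv0 : Fintype.card V ≤ m ^ 2 + m + 1 := by
    have h := Fintype.card_le_of_injective pt hpt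
    rw [Configuration.ProjectivePlane.card_points P L, hm] at h
    exact h
  have h2 : 2 ≤ m := by
    have := Configuration.ProjectivePlane.one_lt_order P L
    rw [hm] at this
    exact this
  refine ⟨h2, ⟨P, L, iP, iL, iM, iPP, hm⟩, hv0, ?_⟩
  have hN0 : 0 < (Fintype.card V : ℝ) := by exact_mod_cast Fintype.card_pos
  obtain ⟨A, hA⟩ : ∃ A : Finset P, A = Finset.univ.image pt := ⟨_, rfl⟩
  obtain ⟨B, hB⟩ : ∃ B : Finset L, B = Finset.univ.image ln := ⟨_, rfl⟩
  have hAc : A.card = Fintype.card V := by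
    rw [hA, Finset.card_image_of_injective _ hpt, Finset.card_univ]
  have hBc : B.card = Fintype.card V := by
    rw [hB, Finset.card_image_of_injective _ hln, Finset.card_univ]
  have hmix := mix P L m hm A B
  rw [hAc, hBc] at hmix
  have hI : (Fintype.card V : ℝ) * d ≤ ∑ l ∈ B, ((A.filter (fun p : P => p ∈ l)).card : ℝ) := by
    rw [hB, Finset.sum_image (fun a _ b _ h => hln h)]
    have h3 : ∀ v ∈ (Finset.univ : Finset V),
        (d : ℝ) ≤ ((A.filter (fun p : P => p ∈ ln v)).card : ℝ) := by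
      intro v _
      have h4 : G.degree v ≤ (A.filter (fun p : P => p ∈ ln v)).card := by
        rw [← SimpleGraph.card_neighborFinset_eq_degree]
        refine Finset.card_le_card_of_injOn pt (fun u hu => ?_) (fun a _ b _ h => hpt h)
        have hu' : G.Adj v u := by simpa using hu
        simp only [Finset.coe_filter, Set.mem_setOf_eq]
        refine ⟨?_, hadj u v hu'.symm⟩
        rw [hA]
        exact Finset.mem_image_of_mem _ (Finset.mem_univ _)
      exact_mod_cast (hdeg v).trans h4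
    have h5 := Finset.sum_le_sum h3
    rw [Finset.sum_const, nsmul_eq_mul, Finset.card_univ] at h5
    exact h5
  generalize ∑ l ∈ B, ((A.filter (fun p : P => p ∈ l)).card : ℝ) = I at *
  have hv1 : (Fintype.card V : ℝ) ≤ (m : ℝ) ^ 2 + m + 1 := by exact_mod_cast hv0
  generalize (Fintype.card V : ℝ) = N at *
  obtain ⟨v, hv⟩ : ∃ v : ℝ, v = (m : ℝ) ^ 2 + m + 1 := ⟨_, rfl⟩
  rw [← hv] at hmix hv1 ⊢
  have hvp : 0 < v := by rw [hv]; positivity
  by_contra hcon
  push Not at hcon
  have hs : Real.sqrt m ^ 2 = (m : ℝ) := Real.sq_sqrt (Nat.cast_nonneg m)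
  have hs0 : 0 ≤ Real.sqrt m := Real.sqrt_nonneg _
  have k1 : 0 ≤ N * (Real.sqrt m * (v - N)) :=
    mul_nonneg hN0.le (mul_nonneg hs0 (by linarith))
  have k2 : N * (Real.sqrt m * (v - N)) < N * (d * v - (m + 1) * N) :=
    mul_lt_mul_of_pos_left (by linarith) hN0
  have k3 : N * (d * v - (m + 1) * N) ≤ v * I - (m + 1) * N * N := by
    have := mul_le_mul_of_nonneg_left hI hvp.le
    nlinarith
  have k4 : (N * (Real.sqrt m * (v - N))) ^ 2 < (v * I - (m + 1) * N * N) ^ 2 :=
    pow_lt_pow_left₀ (lt_of_lt_of_le k2 k3) k1 (by norm_num)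
  have k5 : (N * (Real.sqrt m * (v - N))) ^ 2 = m * N * N * (v - N) * (v - N) := by
    have : (N * (Real.sqrt m * (v - N))) ^ 2 = Real.sqrt m ^ 2 * N * N * (v - N) * (v - N) := by
      ring
    rw [this, hs]
  rw [k5] at k4
  exact absurd hmix (not_le.mpr k4)

end Pool.Agent.SC4.FP
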