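import Mathlib

set_option autoImplicit false

/-
MODULE FP/Near (size M, real estimates). s = sqrt n, n = s^2.
`near`: LOWER: if m < s - 1 then m^2 + m + 1 < (s-1)^2 + (s-1) + 1 = s^2 - s + 1 <= n, contradiction.
UPPER: let g = m - s > 0. From hinc: d m^2 <= (m+1) n + sqrt m (m^2 + m + 1 - n - d)
<= (m+1) s^2 + sqrt m (m^2 - s^2 + m + 1). With d >= s - e:
s m g = s m^2 - m s^2 <= e m^2 + s^2 + sqrt m g (m + s) + sqrt m (m + 1). Divide by m^2 (s <= m, m >= 4):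
s g / m <= e + 2 + 2 g / sqrt m, i.e. g (s - 2 sqrt m) <= (e + 2) m. 5 m <= n + d <= s^2 + s + 1
<= 5 (0.45 s)^2 as s >= 100, so 2 sqrt m <= 0.9 s and g s <= 10 (e + 2) m. If m > 2 s then g > m/2 and
s < 20 (e + 2), contradiction with hs. So m <= 2 s and g <= 20 (e + 2).
`numF`: g = m - s >= 0: d <= ((m+1) s^2 + sqrt m (m^2 + m + 1 - s^2))/m^2;
(m+1) s^2/m^2 = (m+1)(1 - g/m)^2 <= m + 1 - 2 g + g^2 (m+1)/m^2 <= s - g + 1 + 2 g^2/s, and
sqrt m (g (m + s) + m + 1)/m^2 <= (2 g + 2)/sqrt m <= (2 g + 2)/sqrt s <= 1 + g^2/s + 2 (s >= 1).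
`sharp`: |g| <= e bounded: (m+1)(m-g)^2/m^2 = m + 1 - 2 g + O_e(1/m) and
sqrt m |m^2 + m + 1 - s^2|/m^2 = O_e(1/sqrt m); m - 2 g = 2 s - m.
-/

namespace Pool.Agent.SC4.FP

private lemma near_base (s S d m : ℝ) (hd0 : 0 ≤ d) (hS : 0 ≤ S)
    (hinc : d * (m ^ 2 + m + 1) ≤ (m + 1) * (s ^ 2 + d) + S * (m ^ 2 + m + 1 - (s ^ 2 + d))) :
    d * m ^ 2 ≤ (m + 1) * s ^ 2 + S * (m ^ 2 - s ^ 2 + m + 1) := by
  nlinarith [mul_nonneg hS hd0]

private lemma near_real (s S d m e : ℝ) (he : 1 ≤ e) (hs : 100 * (e + 2) ≤ s) (hd : s - e ≤ d)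
    (hds : d ≤ s + 1) (h5 : 5 * m ≤ s ^ 2 + d) (hS : 0 ≤ S) (hSm : S ^ 2 = m)
    (hgt : s + 20 * (e + 2) < m)
    (hb : d * m ^ 2 ≤ (m + 1) * s ^ 2 + S * (m ^ 2 - s ^ 2 + m + 1)) : False := by
  obtain ⟨g, hg⟩ : ∃ g, g = m - s := ⟨_, rfl⟩
  have hg0 : 20 * (e + 2) < g := by rw [hg]; linarith
  have hgp : 0 < g := by linarith
  have hs0 : 0 < s := by linarith
  have hm0 : 0 < m := by linarith
  have hsm : s ≤ m := by linarith
  have hm4 : 4 ≤ m := by linarith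
  have hS2 : 2 ≤ S := by
    by_contra h
    push Not at h
    nlinarith
  have h1 : (s - e) * m ^ 2 ≤ d * m ^ 2 := mul_le_mul_of_nonneg_right hd (sq_nonneg m)
  have hmsg : m = s + g := by rw [hg]; ring
  have h2 : s * m * g ≤ e * m ^ 2 + s ^ 2 + S * (g * (m + s)) + S * (m + 1) := by
    have e1 : s * m * g = s * m ^ 2 - m * s ^ 2 := by rw [hg]; ring
    have e2 : S * (g * (m + s)) = S * (m ^ 2 - s ^ 2) := by rw [hg]; ring
    rw [e1, e2]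
    nlinarith
  have h2S : 2 * S ≤ m := by nlinarith
  have h3 : S * (m + 1) ≤ m ^ 2 := by
    have a1 : S * (m + 1) ≤ S * (2 * m) := mul_le_mul_of_nonneg_left (by linarith) hS
    have a2 : 2 * S * m ≤ m * m := mul_le_mul_of_nonneg_right h2S hm0.le
    nlinarith
  have h4 : S * (g * (m + s)) ≤ S * (g * (2 * m)) :=
    mul_le_mul_of_nonneg_left (mul_le_mul_of_nonneg_left (by linarith) hgp.le) hS
  have h5' : s ^ 2 ≤ m ^ 2 := by nlinarith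
  have h6 : (s * g) * m ≤ ((e + 2) * m + 2 * S * g) * m := by nlinarith
  have h7 : s * g ≤ (e + 2) * m + 2 * S * g := le_of_mul_le_mul_right h6 hm0
  have h8 : 2 * S ≤ 9 / 10 * s := by
    by_contra h
    push Not at h
    have a1 : (9 / 10 * s) ^ 2 < (2 * S) ^ 2 := pow_lt_pow_left₀ h (by positivity) (by norm_num)
    have a2 : (2 * S) ^ 2 = 4 * m := by rw [← hSm]; ring
    have a3 : 300 ≤ s := by linarith
    rw [a2] at a1
    nlinarith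
  have h9 : 2 * S * g ≤ 9 / 10 * s * g := mul_le_mul_of_nonneg_right h8 hgp.le
  have h10 : 1 / 10 * (s * g) ≤ (e + 2) * m := by linarith
  have h11 : (e + 2) * g ≤ 1 / 100 * s * g := mul_le_mul_of_nonneg_right (by linarith) hgp.le
  have h12 : 9 / 100 * g * s ≤ (e + 2) * s := by
    rw [hmsg] at h10
    nlinarith
  have h13 : 9 / 100 * g ≤ e + 2 := le_of_mul_le_mul_right h12 hs0
  linarith

private lemma numF_real (s S r d m : ℝ) (hs : 1 ≤ s) (hm : s ≤ m) (hr : 1 ≤ r) (hrs : r ^ 2 = s)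
    (hrS : r ≤ S) (hSm : S ^ 2 = m)
    (hb : d * m ^ 2 ≤ (m + 1) * s ^ 2 + S * (m ^ 2 - s ^ 2 + m + 1)) :
    d ≤ 2 * s - m + 4 * (1 + (m - s) ^ 2 / s) := by
  obtain ⟨g, hg⟩ : ∃ g, g = m - s := ⟨_, rfl⟩
  obtain ⟨q, hq⟩ : ∃ q, q = g ^ 2 / s := ⟨_, rfl⟩
  have hs0 : 0 < s := by linarith
  have hm0 : 0 < m := by linarith
  have hg0 : 0 ≤ g := by rw [hg]; linarith
  have hqs : q * s = g ^ 2 := by rw [hq]; field_simp
  have hq0 : 0 ≤ q := by rw [hq]; positivity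
  have hS0 : 0 ≤ S := by linarith
  rw [← hg, ← hq]
  have hms : m - s = g := hg.symm
  have e1 : 2 * s - m = m - 2 * g := by rw [hg]; ring
  rw [e1]
  -- first term
  have h1 : (m + 1) * s ^ 2 ≤ m ^ 2 * (m + 1 - 2 * g) + 2 * m ^ 2 * q := by
    have a0 : s = m - g := by rw [hg]; ring
    have a1 : (m + 1) * s ^ 2 = m ^ 2 * (m + 1 - 2 * g) - 2 * m * g + g ^ 2 * (m + 1) := by
      rw [a0]; ring
    have a2 : g ^ 2 * (m + 1) ≤ g ^ 2 * (2 * m) :=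
      mul_le_mul_of_nonneg_left (by linarith) (sq_nonneg g)
    have a3 : g ^ 2 * (2 * m) ≤ 2 * m ^ 2 * q := by
      rw [← hqs]
      have : q * s * (2 * m) ≤ q * m * (2 * m) :=
        mul_le_mul_of_nonneg_right (mul_le_mul_of_nonneg_left hm hq0) (by linarith)
      nlinarith
    have a4 : 0 ≤ 2 * m * g := by positivity
    linarith
  -- second term
  have h2 : S * (m ^ 2 - s ^ 2 + m + 1) ≤ m ^ 2 * (3 + 2 * q) := by
    have a0 : s = m - g := by rw [hg]; ring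
    have a1 : m ^ 2 - s ^ 2 + m + 1 ≤ 2 * m * (g + 1) := by
      have : m ^ 2 - s ^ 2 = g * (m + s) := by rw [hg]; ring
      rw [this]
      have : g * (m + s) ≤ g * (2 * m) := mul_le_mul_of_nonneg_left (by linarith) hg0
      nlinarith
    have a2 : 2 * (g + 1) ≤ S * (3 + 2 * q) := by
      have b1 : 2 * g ≤ r * (1 + q) := by
        have c1 : r * (r * (1 + q)) = s + g ^ 2 := by
          rw [← hqs, ← hrs]; ring
        have c2 : r * (2 * g) ≤ r * (r * (1 + q)) := by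
          rw [c1, ← hrs]; nlinarith [sq_nonneg (r - g)]
        exact le_of_mul_le_mul_left c2 (by linarith)
      have b2 : r * (3 + 2 * q) ≤ S * (3 + 2 * q) :=
        mul_le_mul_of_nonneg_right hrS (by positivity)
      have b3 : 0 ≤ r * q := by positivity
      nlinarith
    have a3 : S * (m ^ 2 - s ^ 2 + m + 1) ≤ S * (2 * m * (g + 1)) :=
      mul_le_mul_of_nonneg_left a1 hS0
    have a4 : S * m * (2 * (g + 1)) ≤ S * m * (S * (3 + 2 * q)) :=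
      mul_le_mul_of_nonneg_left a2 (by positivity)
    have a5 : S * m * (S * (3 + 2 * q)) = m ^ 2 * (3 + 2 * q) := by
      have : S * m * (S * (3 + 2 * q)) = S ^ 2 * m * (3 + 2 * q) := by ring
      rw [this, hSm]; ring
    nlinarith
  have h3 : d * m ^ 2 ≤ (m - 2 * g + 4 * (1 + q)) * m ^ 2 := by nlinarith
  exact le_of_mul_le_mul_right h3 (by positivity)

private lemma sharp_real (s S d m e δ : ℝ) (hδ : 0 < δ) (he : 0 ≤ e) (hm1 : 1 ≤ m) (hme : e ≤ m)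
    (hs0 : 0 ≤ s) (hg : |m - s| ≤ e) (hS1 : 1 ≤ S) (hSm : S ^ 2 = m)
    (hK : (5 * e + 2 * e ^ 2 + 2) ≤ δ * S)
    (hb : d * m ^ 2 ≤ (m + 1) * s ^ 2 + S * (m ^ 2 - s ^ 2 + m + 1)) :
    d ≤ 2 * s - m + 1 + δ := by
  obtain ⟨g, hgd⟩ : ∃ g, g = m - s := ⟨_, rfl⟩
  rw [← hgd, abs_le] at hg
  obtain ⟨hg1, hg2⟩ := hg
  have hm0 : 0 < m := by linarith
  have hgg : g ^ 2 ≤ e ^ 2 := by nlinarith
  have h1 : (m + 1) * s ^ 2 ≤ m ^ 2 * (m + 1 - 2 * g) + m * (2 * e + 2 * e ^ 2) := by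
    have a0 : s = m - g := by rw [hgd]; ring
    have a1 : (m + 1) * s ^ 2 = m ^ 2 * (m + 1 - 2 * g) - 2 * m * g + g ^ 2 * (m + 1) := by
      rw [a0]; ring
    have a2 : g ^ 2 * (m + 1) ≤ e ^ 2 * (2 * m) :=
      mul_le_mul hgg (by linarith) (by linarith) (sq_nonneg e)
    have a3 : m * (-g) ≤ m * e := mul_le_mul_of_nonneg_left (by linarith) hm0.le
    nlinarith
  have h2 : S * (m ^ 2 - s ^ 2 + m + 1) ≤ S * m * (3 * e + 2) := by
    have b1 : m ^ 2 - s ^ 2 = g * (m + s) := by rw [hgd]; ring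
    have b2 : g * (m + s) ≤ e * (m + s) := mul_le_mul_of_nonneg_right hg2 (by linarith)
    have b3 : m + s ≤ 3 * m := by
      have : s = m - g := by rw [hgd]; ring
      linarith
    have b4 : e * (m + s) ≤ e * (3 * m) := mul_le_mul_of_nonneg_left b3 he
    have b5 : m ^ 2 - s ^ 2 + m + 1 ≤ m * (3 * e + 2) := by rw [b1]; nlinarith
    calc S * (m ^ 2 - s ^ 2 + m + 1) ≤ S * (m * (3 * e + 2)) :=
          mul_le_mul_of_nonneg_left b5 (by linarith)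
      _ = S * m * (3 * e + 2) := by ring
  have h3 : m * (2 * e + 2 * e ^ 2) ≤ S * m * (2 * e + 2 * e ^ 2) := by
    have : m ≤ S * m := by nlinarith
    exact mul_le_mul_of_nonneg_right this (by positivity)
  have h4 : S * m * (5 * e + 2 * e ^ 2 + 2) ≤ S * m * (δ * S) :=
    mul_le_mul_of_nonneg_left hK (by positivity)
  have h5 : S * m * (δ * S) = m ^ 2 * δ := by
    have : S * m * (δ * S) = S ^ 2 * m * δ := by ring
    rw [this, hSm]; ring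
  have h6 : d * m ^ 2 ≤ (2 * s - m + 1 + δ) * m ^ 2 := by
    have : 2 * s - m + 1 = m + 1 - 2 * g := by rw [hgd]; ring
    rw [this]
    nlinarith
  exact le_of_mul_le_mul_right h6 (by positivity)

theorem near (n d m : ℕ) (e : ℝ) (he : 1 ≤ e) (hs : 100 * (e + 2) ≤ Real.sqrt n)
    (hd : Real.sqrt n - e ≤ d) (hds : (d : ℝ) ≤ Real.sqrt n + 1) (h5 : 5 * m ≤ n + d)
    (hv : n + d ≤ m ^ 2 + m + 1)
    (hinc : (d : ℝ) * ((m : ℝ) ^ 2 + m + 1) ≤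
        (m + 1) * (n + d) + Real.sqrt m * ((m : ℝ) ^ 2 + m + 1 - (n + d))) :
    Real.sqrt n - 1 ≤ m ∧ (m : ℝ) ≤ Real.sqrt n + 20 * (e + 2) := by
  have hn : Real.sqrt n ^ 2 = n := Real.sq_sqrt (Nat.cast_nonneg n)
  have hSm : Real.sqrt m ^ 2 = m := Real.sq_sqrt (Nat.cast_nonneg m)
  have hs0 : 0 ≤ Real.sqrt n := Real.sqrt_nonneg _
  have hS0 : 0 ≤ Real.sqrt m := Real.sqrt_nonneg _
  have hd0 : (0 : ℝ) ≤ d := Nat.cast_nonneg d
  have hm0 : (0 : ℝ) ≤ m := Nat.cast_nonneg m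
  have h5' : 5 * (m : ℝ) ≤ n + d := by exact_mod_cast h5
  have hv' : (n : ℝ) + d ≤ (m : ℝ) ^ 2 + m + 1 := by exact_mod_cast hv
  obtain ⟨s, hs_def⟩ : ∃ s, s = Real.sqrt n := ⟨_, rfl⟩
  obtain ⟨S, hS_def⟩ : ∃ S, S = Real.sqrt m := ⟨_, rfl⟩
  rw [← hs_def] at hn hs0 hs hd hds ⊢
  rw [← hS_def] at hSm hS0 hinc
  rw [← hn] at h5' hv' hinc
  refine ⟨?_, ?_⟩
  · by_contra h
    push Not at h
    have : (m : ℝ) ^ 2 < (s - 1) ^ 2 := by nlinarith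
    nlinarith
  · by_contra h
    push Not at h
    exact near_real s S d m e he hs hd hds h5' hS0 hSm h (near_base s S d m hd0 hS0 hinc)

theorem numF (n d m : ℕ) (hs : 1 ≤ Real.sqrt n) (hm : Real.sqrt n ≤ m)
    (hinc : (d : ℝ) * ((m : ℝ) ^ 2 + m + 1) ≤
        (m + 1) * (n + d) + Real.sqrt m * ((m : ℝ) ^ 2 + m + 1 - (n + d))) :
    (d : ℝ) ≤ 2 * Real.sqrt n - m + 4 * (1 + (m - Real.sqrt n) ^ 2 / Real.sqrt n) := by
  have hn : Real.sqrt n ^ 2 = n := Real.sq_sqrt (Nat.cast_nonneg n)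
  have hSm : Real.sqrt m ^ 2 = m := Real.sq_sqrt (Nat.cast_nonneg m)
  have hS0 : 0 ≤ Real.sqrt m := Real.sqrt_nonneg _
  have hd0 : (0 : ℝ) ≤ d := Nat.cast_nonneg d
  have hr : 1 ≤ Real.sqrt (Real.sqrt n) := by
    rw [Real.le_sqrt' one_pos]; simpa using hs
  have hrs : Real.sqrt (Real.sqrt n) ^ 2 = Real.sqrt n := Real.sq_sqrt (Real.sqrt_nonneg _)
  have hrS : Real.sqrt (Real.sqrt n) ≤ Real.sqrt m := Real.sqrt_le_sqrt hm
  rw [← hn] at hinc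
  exact numF_real (Real.sqrt n) (Real.sqrt m) _ d m hs hm hr hrs hrS hSm
    (near_base (Real.sqrt n) (Real.sqrt m) d m hd0 hS0 (by simpa [Real.sqrt_sq_eq_abs] using hinc))

theorem sharp (e δ : ℝ) (hδ : 0 < δ) : ∃ s0 : ℝ, ∀ n d m : ℕ, s0 ≤ Real.sqrt n →
    |(m : ℝ) - Real.sqrt n| ≤ e →
    (d : ℝ) * ((m : ℝ) ^ 2 + m + 1) ≤
        (m + 1) * (n + d) + Real.sqrt m * ((m : ℝ) ^ 2 + m + 1 - (n + d)) →
    (d : ℝ) ≤ 2 * Real.sqrt n - m + 1 + δ := by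
  by_cases he : 0 ≤ e
  swap
  · refine ⟨0, fun n d m _ h _ => ?_⟩
    exact absurd (le_trans (abs_nonneg _) h) he
  refine ⟨((5 * e + 2 * e ^ 2 + 2) / δ) ^ 2 + 2 * e + 1, fun n d m hs0 hg hinc => ?_⟩
  have hn : Real.sqrt n ^ 2 = n := Real.sq_sqrt (Nat.cast_nonneg n)
  have hSm : Real.sqrt m ^ 2 = m := Real.sq_sqrt (Nat.cast_nonneg m)
  have hS0 : 0 ≤ Real.sqrt m := Real.sqrt_nonneg _
  have hs00 : 0 ≤ Real.sqrt n := Real.sqrt_nonneg _
  have hd0 : (0 : ℝ) ≤ d := Nat.cast_nonneg d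
  have hg' := abs_le.mp hg
  have hK2 : 0 ≤ ((5 * e + 2 * e ^ 2 + 2) / δ) ^ 2 := sq_nonneg _
  have hm1 : (1 : ℝ) ≤ m := by linarith [hg'.1]
  have hme : e ≤ (m : ℝ) := by linarith [hg'.1]
  have hmK : ((5 * e + 2 * e ^ 2 + 2) / δ) ^ 2 ≤ (m : ℝ) := by linarith [hg'.1]
  have hS1 : 1 ≤ Real.sqrt m := by
    rw [Real.le_sqrt' one_pos]; simpa using hm1
  have hSK : (5 * e + 2 * e ^ 2 + 2) / δ ≤ Real.sqrt m := Real.le_sqrt_of_sq_le hmK
  have hK : 5 * e + 2 * e ^ 2 + 2 ≤ δ * Real.sqrt m := by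
    rw [div_le_iff₀ hδ] at hSK
    linarith
  have hb := near_base (Real.sqrt n) (Real.sqrt m) d m hd0 hS0 (by rw [hn]; exact hinc)
  exact sharp_real (Real.sqrt n) (Real.sqrt m) d m e δ hδ he hm1 hme hs00 hg hS1 hSm hK hb

end Pool.Agent.SC4.FP
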