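import Mathlib
import Pool.Agent.Work.MP_2d1b31_co.Base
import Pool.Agent.Work.MP_2d1b31_co.FP.Defs
import Pool.Agent.Work.MP_2d1b31_co.FP.IncF
import Pool.Agent.Work.MP_2d1b31_co.FP.Near
import Pool.Agent.Work.MP_2d1b31_co.TN.Degree
import Pool.Agent.Work.MP_2d1b31_co.TN.Density

set_option autoImplicit false

/-
MODULE FP/F1 (size M). Cites c4f, incF, near, star_iff, TN.degree_bound, TN.density.
The proof is the same as that of `TP.conj`, `TP.conj_density` in TP/Conj.lean (copy and adapt).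
f1: c0 = max c 0, e = c0 + 3, R = 10^4 (e + 2) say, s = sqrt n. If s < 100 (e + 2) then |2 - s| <= R,
excluded. N0 = floor(n + s - c0). Let N >= N0, G on Fin N, PlaneEmb G m, m in O, 5 m <= N, and no star
K_{1,n} in the complement. N = n + d (n + 2 <= N), all degrees >= d (star_iff), d >= s - c0 - 1 >= s - e,
d <= s + 1 (degree_bound with y = d - 1, E = n: y^2 <= n). incF (Fin N is nonempty) gives hv, hinc; near:
s - 1 <= m <= s + 20 (e + 2), so |m - s| <= R, contradiction.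
f1_density: O = prime powers; if n is exceptional then a prime power q is within R of sqrt n, and q >= r for n
large; for every prime p | q, p^(q.factorization p) = q >= r; so n is in the set of TN.density.
-/

namespace Pool.Agent.SC4.FP

theorem f1 (c : ℝ) : ∃ R : ℝ, ∀ O : Set ℕ, 2 ∈ O → ∀ n : ℕ,
    (∀ m ∈ O, R < |(m : ℝ) - Real.sqrt n|) →
    ∃ N0 : ℕ, (N0 : ℝ) ≤ (n : ℝ) + Real.sqrt n - c ∧
      ∀ N : ℕ, N0 ≤ N → ∀ G : SimpleGraph (Fin N), (∃ m ∈ O, 5 * m ≤ N ∧ PlaneEmb G m) →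
        (completeBipartiteGraph (Fin 1) (Fin n)).IsContained Gᶜ := by
  classical
  set c0 : ℝ := max c 0 with hc0
  have hc00 : 0 ≤ c0 := le_max_right _ _
  have hcc : c ≤ c0 := le_max_left _ _
  refine ⟨200 * (c0 + 5), fun O hO n hn => ?_⟩
  set s : ℝ := Real.sqrt n with hs
  have hs_nn : 0 ≤ s := Real.sqrt_nonneg _
  have hsq : s ^ 2 = n := Real.sq_sqrt (Nat.cast_nonneg n)
  -- `s` is large, otherwise `m = 2` is too near
  have hsl : 100 * (c0 + 5) ≤ s := by
    by_contra hlt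
    push Not at hlt
    have h2 := hn 2 hO
    have h3 : |((2 : ℕ) : ℝ) - s| ≤ 200 * (c0 + 5) := by
      rw [abs_le]; push_cast; constructor <;> linarith
    linarith
  set N1 : ℕ := ⌊(n : ℝ) + s - c0⌋₊ with hN
  have hn0 : (0 : ℝ) ≤ n := Nat.cast_nonneg n
  have hN1 : (N1 : ℝ) ≤ (n : ℝ) + s - c0 := Nat.floor_le (by nlinarith)
  have hN2' : (n : ℝ) + s - c0 < N1 + 1 := Nat.lt_floor_add_one _
  refine ⟨N1, by linarith, fun N hNN G hT => ?_⟩
  obtain ⟨m, hmO, hm5, hG⟩ := hT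
  have hNNr : (N1 : ℝ) ≤ N := by exact_mod_cast hNN
  have hN2 : (n : ℝ) + s - c0 < N + 1 := by linarith
  by_contra hstar
  rw [star_iff] at hstar
  push Not at hstar
  simp only [Fintype.card_fin] at hstar
  have hC4 : C4Free G := c4f hG
  have hnN : n + 2 ≤ N := by
    have : ((n + 1 : ℕ) : ℝ) < (N : ℝ) := by push_cast; nlinarith
    have h3 : n + 1 < N := by exact_mod_cast this
    omega
  obtain ⟨y, hy⟩ : ∃ y, N = n + (y + 1) := ⟨N - n - 1, by omega⟩
  have hdeg : ∀ v, y + 1 ≤ G.degree v := fun v => by have := hstar v; omega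
  haveI : Nonempty (Fin N) := ⟨⟨0, by omega⟩⟩
  obtain ⟨hyn, -⟩ := TN.degree_bound G hC4 y hdeg n (by rw [Fintype.card_fin, hy])
  have hyR : s - c0 - 2 < y := by
    have : (N : ℝ) = n + (y + 1) := by exact_mod_cast hy
    linarith
  have hy_nn : (0 : ℝ) ≤ y := Nat.cast_nonneg y
  have hys : (y : ℝ) ≤ s := by
    refine Real.le_sqrt_of_sq_le ?_
    exact_mod_cast hyn
  obtain ⟨-, -, hv, hinc⟩ := incF hG (y + 1) (fun v => by convert hdeg v)
  rw [Fintype.card_fin, hy] at hv hinc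
  push_cast at hinc
  obtain ⟨hl, hu⟩ := near n (y + 1) m (c0 + 3) (by linarith) (by rw [← hs]; linarith)
    (by rw [← hs]; push_cast; linarith) (by rw [← hs]; push_cast; linarith) (by omega) hv
    (by push_cast; exact hinc)
  rw [← hs] at hl hu
  have h3 := hn m hmO
  have h4 : |(m : ℝ) - s| ≤ 200 * (c0 + 5) := by
    rw [abs_le]; constructor <;> linarith
  linarith

open Classical in
/-- Only planes of prime power order: density one. -/
theorem f1_density (c ε : ℝ) (hε : 0 < ε) : ∃ X0 : ℕ, ∀ X : ℕ, X0 ≤ X →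
    (((Finset.range (X + 1)).filter (fun n : ℕ => ¬ ∃ N0 : ℕ,
      (N0 : ℝ) ≤ (n : ℝ) + Real.sqrt (n : ℝ) - c ∧
      ∀ N : ℕ, N0 ≤ N → ∀ G : SimpleGraph (Fin N),
        (∃ m, IsPrimePow m ∧ 5 * m ≤ N ∧ PlaneEmb G m) →
        (completeBipartiteGraph (Fin 1) (Fin n)).IsContained Gᶜ)).card : ℝ) ≤ ε * X := by
  obtain ⟨R, hR⟩ := f1 c
  obtain ⟨r, X0, hd⟩ := TN.density R (ε / 2) (half_pos hε)
  obtain ⟨n0, hn0⟩ := exists_nat_ge ((|R| + r) ^ 2)
  refine ⟨max X0 (⌈2 * n0 / ε⌉₊), fun X hX => ?_⟩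
  have hsub : (Finset.range (X + 1)).filter (fun n : ℕ => ¬ ∃ N0 : ℕ,
      (N0 : ℝ) ≤ (n : ℝ) + Real.sqrt (n : ℝ) - c ∧
      ∀ N : ℕ, N0 ≤ N → ∀ G : SimpleGraph (Fin N),
        (∃ m, IsPrimePow m ∧ 5 * m ≤ N ∧ PlaneEmb G m) →
        (completeBipartiteGraph (Fin 1) (Fin n)).IsContained Gᶜ) ⊆
      Finset.range n0 ∪ (Finset.range (X + 1)).filter (fun n : ℕ => ∃ h : ℕ,
        |(h : ℝ) - Real.sqrt n| ≤ R ∧
        ∀ p : ℕ, p.Prime → p ∣ h → r ≤ p ^ (h.factorization p) + 1) := by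
    intro n hn
    rw [Finset.mem_filter] at hn
    rw [Finset.mem_union]
    by_cases h1 : n < n0
    · exact Or.inl (Finset.mem_range.2 h1)
    refine Or.inr (Finset.mem_filter.2 ⟨hn.1, ?_⟩)
    by_contra hc
    refine hn.2 (hR {q : ℕ | IsPrimePow q} Nat.prime_two.isPrimePow n fun q hq => ?_)
    by_contra hlt
    push Not at hlt
    refine hc ⟨q, hlt, fun p hp hpq => ?_⟩
    -- `q` is at least `r`
    have hs : |R| + r ≤ Real.sqrt n := by
      refine Real.le_sqrt_of_sq_le (hn0.trans ?_)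
      exact_mod_cast not_lt.1 h1
    have h2 : (r : ℝ) ≤ q := by
      have h3 := (abs_le.1 hlt).1
      have h4 := le_abs_self R
      linarith
    have h3 : r ≤ q := by exact_mod_cast h2
    obtain ⟨p', e, hp', he, rfl⟩ := (isPrimePow_nat_iff q).1 hq
    have h4 : p = p' := (Nat.prime_dvd_prime_iff_eq hp hp').1 (hp.dvd_of_dvd_pow hpq)
    subst h4
    rw [hp.factorization_pow, Finsupp.single_eq_same]
    omega
  have hcard := (Finset.card_le_card hsub).trans (Finset.card_union_le _ _)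
  rw [Finset.card_range] at hcard
  have hd' := hd X ((le_max_left _ _).trans hX)
  have hX2 : (n0 : ℝ) ≤ ε / 2 * X := by
    have h1 : 2 * n0 / ε ≤ (⌈2 * n0 / ε⌉₊ : ℝ) := Nat.le_ceil _
    have h2 : ((⌈2 * n0 / ε⌉₊ : ℕ) : ℝ) ≤ X := by
      exact_mod_cast (le_max_right _ _).trans hX
    have h3 : 2 * n0 / ε ≤ (X : ℝ) := h1.trans h2
    rw [div_le_iff₀ hε] at h3
    linarith
  refine (Nat.cast_le.2 hcard).trans ?_
  push_cast
  linarith

end Pool.Agent.SC4.FP
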