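import Mathlib

set_option autoImplicit false

/-
MODULE FP/Arith (size S). Infinitely many m = 1 mod 4 such that neither m nor m + 1 is a sum of two
squares: m = 741 + 1764 j: m = 1 mod 4, m = 3 mod 9 (3 divides m exactly once), m + 1 = 7 mod 49 (7
divides m + 1 exactly once). Elementary: if 3 | a^2 + b^2 then 3 | a, 3 | b and 9 | a^2 + b^2; same for 7.
-/

namespace Pool.Agent.SC4.FP

private theorem m9 : ∀ x < 9, ∀ y < 9, (x ^ 2 + y ^ 2) % 9 ≠ 3 := by decide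

private theorem m7 : ∀ x < 7, ∀ y < 7, (x ^ 2 + y ^ 2) % 7 = 0 → x = 0 ∧ y = 0 := by decide

theorem arith (m0 : ℕ) : ∃ m : ℕ, m0 ≤ m ∧ m % 4 = 1 ∧ (¬ ∃ a b : ℕ, m = a ^ 2 + b ^ 2) ∧
    (¬ ∃ a b : ℕ, m + 1 = a ^ 2 + b ^ 2) := by
  refine ⟨741 + 1764 * m0, by omega, by omega, ?_, ?_⟩
  · rintro ⟨a, b, h⟩
    apply m9 (a % 9) (Nat.mod_lt _ (by norm_num)) (b % 9) (Nat.mod_lt _ (by norm_num))
    rw [Nat.add_mod, ← Nat.pow_mod, ← Nat.pow_mod, ← Nat.add_mod, ← h]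
    omega
  · rintro ⟨a, b, h⟩
    have h1 := m7 (a % 7) (Nat.mod_lt _ (by norm_num)) (b % 7) (Nat.mod_lt _ (by norm_num)) (by
      rw [Nat.add_mod, ← Nat.pow_mod, ← Nat.pow_mod, ← Nat.add_mod, ← h]
      omega)
    obtain ⟨x, hx⟩ := Nat.dvd_of_mod_eq_zero h1.1
    obtain ⟨y, hy⟩ := Nat.dvd_of_mod_eq_zero h1.2
    have h2 : a ^ 2 + b ^ 2 = 49 * (x ^ 2 + y ^ 2) := by
      rw [hx, hy]
      ring
    omega

end Pool.Agent.SC4.FP
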