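import Mathlib
import Pool.Agent.Work.MP_2d1b31_co.FP.Defs

set_option autoImplicit false

/-
MODULE FP/BR (size L, may be split). The Bruck-Ryser theorem.
`signs`: induction on k. Last index: the affine function sum_j c_kj y_j + c0_k; choose eps_k in {1,-1}
different from c_kk; then y_k := (sum_{j<k} c_kj y_j + c0_k)/(eps_k - c_kk) is an affine function of the
other y_j; substitute it in the first k - 1 affine functions and apply the induction hypothesis.
`bruckRyser`: plane of order m, m = 1 or 2 mod 4, v = m^2 + m + 1 = 3 mod 4, so v + 1 = 4 t.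
For x : P -> Q let L_l(x) = sum of x_p over p in l (l a line). Then
   sum_l L_l^2 = m sum_p x_p^2 + w^2, w = sum_p x_p
(two different points are on exactly one line, each point on m + 1 lines). m = a^2+b^2+c^2+d^2
(Nat.sum_four_squares); Euler's identity: with the 4x4 matrix
Q = [[a,-b,-c,-d],[b,a,-d,c],[c,d,a,-b],[d,-c,b,a]] one has |Q z|^2 = m |z|^2; Q invertible over the
rationals since m > 0. Index the v + 1 variables (x_p, p in P, and one more, x_oo) by Fin t x Fin 4
(an equivalence Option P ≃ Fin t × Fin 4) and let y = Q x blockwise: sum of all y^2 = m (sum x_p^2 + x_oo^2),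
x is a linear function of y. Choose a bijection of the lines with the set of all indices but one, say
index o; so y = (y_l)_{l in L}, y_o. Put y_o = 1. Each L_l(x(y)) is an affine function of (y_l'), so by
`signs` (transported to Fin v) there is y with y_o = 1 and L_l(x(y)) = ± y_l for all lines l. Then
   sum_l y_l^2 + m x_oo^2 = sum_l L_l^2 + m x_oo^2 = m (sum x_p^2 + x_oo^2) + w^2
                          = sum_l y_l^2 + 1 + w^2,
so m x_oo^2 = 1 + w^2 with x_oo, w rational, x_oo <> 0. Clearing denominators m X^2 = Y^2 + Z^2 with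
natural numbers, X <> 0. By Nat.eq_sq_add_sq_iff the exponent of every prime q = 3 mod 4 in m X^2 is even,
hence also in m, and m is a sum of two squares.
-/

namespace Pool.Agent.SC4.FP

theorem signs (k : ℕ) (c : Fin k → Fin k → ℚ) (c0 : Fin k → ℚ) :
    ∃ (y ε : Fin k → ℚ), (∀ i, ε i = 1 ∨ ε i = -1) ∧
      ∀ i, (∑ j, c i j * y j) + c0 i = ε i * y i := by
  induction k with
  | zero => exact ⟨fun _ => 0, fun _ => 1, fun i => i.elim0, fun i => i.elim0⟩
  | succ k ih =>
    obtain ⟨e0, he0, hne⟩ : ∃ e0 : ℚ, (e0 = 1 ∨ e0 = -1) ∧ e0 - c 0 0 ≠ 0 := by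
      by_cases h : c 0 0 = 1
      · exact ⟨-1, Or.inr rfl, by rw [h]; norm_num⟩
      · exact ⟨1, Or.inl rfl, fun h' => h (by linarith)⟩
    obtain ⟨y, ε, hε, hy⟩ := ih (fun i j => c i.succ j.succ + c i.succ 0 * c 0 j.succ / (e0 - c 0 0))
      (fun i => c0 i.succ + c i.succ 0 * c0 0 / (e0 - c 0 0))
    refine ⟨Fin.cons (((∑ j, c 0 j.succ * y j) + c0 0) / (e0 - c 0 0)) y, Fin.cons e0 ε, ?_, ?_⟩
    · intro i
      refine Fin.cases ?_ (fun i => ?_) i
      · simpa using he0
      · simpa using hε i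
    · intro i
      refine Fin.cases ?_ (fun i => ?_) i
      · rw [Fin.sum_univ_succ]
        simp only [Fin.cons_zero, Fin.cons_succ]
        field_simp
        ring
      · rw [Fin.sum_univ_succ]
        simp only [Fin.cons_zero, Fin.cons_succ]
        rw [← hy i]
        have h1 : ∑ j, (c i.succ j.succ + c i.succ 0 * c 0 j.succ / (e0 - c 0 0)) * y j
            = (∑ j, c i.succ j.succ * y j)
              + c i.succ 0 / (e0 - c 0 0) * ∑ j, c 0 j.succ * y j := by
          rw [Finset.mul_sum, ← Finset.sum_add_distrib]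
          refine Finset.sum_congr rfl fun j _ => ?_
          ring
        rw [h1]
        ring

theorem sq_of_rat (m : ℕ) (x w : ℚ) (h : (m : ℚ) * x ^ 2 = 1 + w ^ 2) :
    ∃ a b : ℕ, m = a ^ 2 + b ^ 2 := by
  have hx : x ≠ 0 := by
    rintro rfl
    nlinarith [sq_nonneg w]
  have hm : m ≠ 0 := by
    rintro rfl
    have := sq_nonneg w
    push_cast at h
    nlinarith
  have hxd : (x.den : ℚ) ≠ 0 := by exact_mod_cast x.den_nz
  have hwd : (w.den : ℚ) ≠ 0 := by exact_mod_cast w.den_nz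
  have hxe : x * x.den = x.num := Rat.mul_den_eq_num x
  have hwe : w * w.den = w.num := Rat.mul_den_eq_num w
  have h1 : (m : ℚ) * ((x.num : ℚ) * w.den) ^ 2
      = ((x.den : ℚ) * w.den) ^ 2 + ((w.num : ℚ) * x.den) ^ 2 := by
    rw [← hxe, ← hwe]
    have : (m : ℚ) * (x * x.den * w.den) ^ 2 = (m * x ^ 2) * (x.den * w.den) ^ 2 := by ring
    rw [this, h]
    ring
  have h2 : (m : ℤ) * (x.num * w.den) ^ 2 = ((x.den : ℤ) * w.den) ^ 2 + (w.num * x.den) ^ 2 := by
    exact_mod_cast h1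
  have h3 : m * (x.num * w.den).natAbs ^ 2
      = (x.den * w.den) ^ 2 + (w.num * x.den).natAbs ^ 2 := by
    zify
    rw [sq_abs, sq_abs]
    exact h2
  have hX : (x.num * w.den).natAbs ≠ 0 := by
    rw [Int.natAbs_ne_zero]
    exact mul_ne_zero (Rat.num_ne_zero.2 hx) (by exact_mod_cast w.den_nz)
  rw [Nat.eq_sq_add_sq_iff]
  intro q hq hq3
  have hqp : q.Prime := Nat.prime_of_mem_primeFactors hq
  haveI : Fact q.Prime := ⟨hqp⟩
  have h4 := (Nat.eq_sq_add_sq_iff (n := m * (x.num * w.den).natAbs ^ 2)).1 ⟨_, _, h3⟩ (q := q)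
    (by
      rw [Nat.mem_primeFactors]
      exact ⟨hqp, Dvd.dvd.mul_right (Nat.dvd_of_mem_primeFactors hq) _,
        mul_ne_zero hm (pow_ne_zero _ hX)⟩) hq3
  rw [padicValNat.mul hm (pow_ne_zero _ hX), padicValNat.pow] at h4
  rw [Nat.even_add] at h4
  exact h4.2 ⟨padicValNat q (x.num * w.den).natAbs, by ring⟩

private theorem four (a b c d : ℚ) (z : Fin 4 → ℚ) :
    ∑ i, (∑ k, (![![a, b, c, d], ![-b, a, -d, c], ![-c, d, a, -b], ![-d, -c, b, a]] :
      Fin 4 → Fin 4 → ℚ) i k * z k) ^ 2 = (a ^ 2 + b ^ 2 + c ^ 2 + d ^ 2) * ∑ k, z k ^ 2 := by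
  simp [Fin.sum_univ_four]
  ring

private theorem core {ι P L : Type} [Fintype ι] [Fintype P] [Fintype L] [DecidableEq ι]
    (N : L → P → ℚ) (m : ℚ)
    (hN : ∀ x : P → ℚ, ∑ l, (∑ p, N l p * x p) ^ 2 = m * ∑ p, x p ^ 2 + (∑ p, x p) ^ 2)
    (X : (ι → ℚ) →ₗ[ℚ] (ι → ℚ)) (hX : ∀ y, m * ∑ i, (X y i) ^ 2 = ∑ i, y i ^ 2)
    (e : Option P ≃ ι) (g : Option L ≃ ι) : ∃ x w : ℚ, m * x ^ 2 = 1 + w ^ 2 := by
  classical
  let F : L → (ι → ℚ) →ₗ[ℚ] ℚ := fun l => ∑ p, N l p • (LinearMap.proj (e (some p)) ∘ₗ X)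
  have hF : ∀ l y, F l y = ∑ p, N l p * X y (e (some p)) := by
    intro l y
    simp [F, LinearMap.sum_apply]
  let h : Fin (Fintype.card L) ≃ L := (Fintype.equivFin L).symm
  obtain ⟨z, ε, hε, hz⟩ := signs (Fintype.card L)
    (fun i j => F (h i) (fun q => if g (some (h j)) = q then 1 else 0))
    (fun i => F (h i) (fun q => if g none = q then 1 else 0))
  let y : ι → ℚ := fun q => (g.symm q).elim 1 (fun l => z (h.symm l))
  have hy0 : y (g none) = 1 := by simp [y]
  have hy1 : ∀ l, y (g (some l)) = z (h.symm l) := by intro l; simp [y]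
  have hFy : ∀ l, F l y = ε (h.symm l) * y (g (some l)) := by
    intro l
    have h1 := hz (h.symm l)
    rw [Equiv.apply_symm_apply] at h1
    rw [hy1, ← h1, LinearMap.pi_apply_eq_sum_univ (F l) y, ← Equiv.sum_comp g, Fintype.sum_option,
      hy0, one_smul, add_comm]
    congr 1
    rw [← Equiv.sum_comp h]
    refine Finset.sum_congr rfl fun j _ => ?_
    rw [hy1, Equiv.symm_apply_apply, smul_eq_mul, mul_comm]
  have hs1 : ∑ l, (F l y) ^ 2 = ∑ l, y (g (some l)) ^ 2 := by
    refine Finset.sum_congr rfl fun l _ => ?_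
    rw [hFy, mul_pow]
    rcases hε (h.symm l) with h1 | h1 <;> rw [h1] <;> ring
  have hs2 : ∑ q, y q ^ 2 = 1 + ∑ l, y (g (some l)) ^ 2 := by
    rw [← Equiv.sum_comp g, Fintype.sum_option, hy0, one_pow]
  have hs3 : ∑ q, (X y q) ^ 2 = (X y (e none)) ^ 2 + ∑ p, (X y (e (some p))) ^ 2 := by
    rw [← Equiv.sum_comp e, Fintype.sum_option]
  have hs4 := hN (fun p => X y (e (some p)))
  have hs5 : ∑ l, (F l y) ^ 2 = ∑ l, (∑ p, N l p * X y (e (some p))) ^ 2 :=
    Finset.sum_congr rfl fun l _ => by rw [hF]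
  have hs6 := hX y
  refine ⟨X y (e none), ∑ p, X y (e (some p)), ?_⟩
  rw [hs3, hs2] at hs6
  rw [← hs5, hs1] at hs4
  linarith

open Configuration in
private theorem gram {P L : Type} [Fintype P] [Fintype L] [Membership P L] [ProjectivePlane P L]
    [DecidableEq P] [∀ (p : P) (l : L), Decidable (p ∈ l)] (p q : P) :
    ∑ l : L, (if p ∈ l then (1 : ℚ) else 0) * (if q ∈ l then 1 else 0)
      = 1 + (if p = q then (ProjectivePlane.order P L : ℚ) else 0) := by
  classical
  by_cases hpq : p = q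
  · subst hpq
    rw [if_pos rfl]
    have h1 : ∀ l : L, (if p ∈ l then (1 : ℚ) else 0) * (if p ∈ l then 1 else 0)
        = if p ∈ l then 1 else 0 := by
      intro l
      split_ifs <;> simp
    rw [Finset.sum_congr rfl fun l _ => h1 l, Finset.sum_boole]
    have h2 : (Finset.univ.filter fun l : L => p ∈ l).card = lineCount L p := by
      rw [lineCount, Nat.card_eq_fintype_card, Fintype.card_subtype]
    rw [h2, ProjectivePlane.lineCount_eq]
    push_cast
    ring
  · rw [if_neg hpq, add_zero]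
    have h0 := HasLines.mkLine_ax (P := P) (L := L) hpq
    rw [Finset.sum_eq_single (HasLines.mkLine hpq)]
    · rw [if_pos h0.1, if_pos h0.2, one_mul]
    · intro l _ hl
      by_cases h1 : p ∈ l
      · by_cases h2 : q ∈ l
        · exact absurd ((Nondegenerate.eq_or_eq h1 h2 h0.1 h0.2).resolve_left hpq) hl
        · rw [if_neg h2, mul_zero]
      · rw [if_neg h1, zero_mul]
    · intro h
      exact absurd (Finset.mem_univ _) h

open Configuration in
theorem bruckRyser (m : ℕ) (h : PlaneOrder m) (h4 : m % 4 = 1 ∨ m % 4 = 2) :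
    ∃ a b : ℕ, m = a ^ 2 + b ^ 2 := by
  classical
  obtain ⟨P, L, _, _, _, _, hord⟩ := h
  have hcP : Fintype.card P = m ^ 2 + m + 1 := by
    rw [← hord]; exact ProjectivePlane.card_points P L
  have hcL : Fintype.card L = m ^ 2 + m + 1 := by
    rw [← hord]; exact ProjectivePlane.card_lines P L
  obtain ⟨t, ht⟩ : ∃ t, m ^ 2 + m + 1 + 1 = t * 4 := by
    rcases h4 with h | h
    · obtain ⟨s, rfl⟩ : ∃ s, m = 4 * s + 1 := ⟨m / 4, by omega⟩
      exact ⟨4 * s ^ 2 + 3 * s + 1, by ring⟩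
    · obtain ⟨s, rfl⟩ : ∃ s, m = 4 * s + 2 := ⟨m / 4, by omega⟩
      exact ⟨4 * s ^ 2 + 5 * s + 2, by ring⟩
  obtain ⟨a, b, c, d, habcd⟩ := Nat.sum_four_squares m
  have hm0 : (m : ℚ) ≠ 0 := by
    have : m ≠ 0 := by rintro rfl; omega
    exact_mod_cast this
  have hmq : (a : ℚ) ^ 2 + (b : ℚ) ^ 2 + (c : ℚ) ^ 2 + (d : ℚ) ^ 2 = m := by
    exact_mod_cast habcd
  let M : Fin 4 → Fin 4 → ℚ := ![![(a : ℚ), b, c, d], ![-(b : ℚ), a, -d, c],
    ![-(c : ℚ), d, a, -b], ![-(d : ℚ), -c, b, a]]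
  let X : (Fin t × Fin 4 → ℚ) →ₗ[ℚ] (Fin t × Fin 4 → ℚ) :=
    LinearMap.pi fun q => (m : ℚ)⁻¹ • ∑ k, M q.2 k • LinearMap.proj (q.1, k)
  have hXa : ∀ y s i, X y (s, i) = (m : ℚ)⁻¹ * ∑ k, M i k * y (s, k) := by
    intro y s i
    simp [X, LinearMap.sum_apply]
  have hX : ∀ y, (m : ℚ) * ∑ i, (X y i) ^ 2 = ∑ i, y i ^ 2 := by
    intro y
    rw [Fintype.sum_prod_type, Fintype.sum_prod_type, Finset.mul_sum]
    refine Finset.sum_congr rfl fun s _ => ?_
    have h1 : ∀ i, (X y (s, i)) ^ 2 = ((m : ℚ)⁻¹) ^ 2 * (∑ k, M i k * y (s, k)) ^ 2 := by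
      intro i
      rw [hXa, mul_pow]
    rw [Finset.sum_congr rfl fun i _ => h1 i, ← Finset.mul_sum,
      four (a : ℚ) b c d (fun k => y (s, k)), hmq]
    field_simp
  have e : Option P ≃ Fin t × Fin 4 := Fintype.equivOfCardEq (by
    rw [Fintype.card_option, hcP, Fintype.card_prod, Fintype.card_fin, Fintype.card_fin, ht])
  have g : Option L ≃ Fin t × Fin 4 := Fintype.equivOfCardEq (by
    rw [Fintype.card_option, hcL, Fintype.card_prod, Fintype.card_fin, Fintype.card_fin, ht])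
  have hN : ∀ x : P → ℚ, ∑ l : L, (∑ p, (if p ∈ l then (1 : ℚ) else 0) * x p) ^ 2
      = (m : ℚ) * ∑ p, x p ^ 2 + (∑ p, x p) ^ 2 := by
    intro x
    have h1 : ∀ l : L, (∑ p, (if p ∈ l then (1 : ℚ) else 0) * x p) ^ 2
        = ∑ p, ∑ q, ((if p ∈ l then (1 : ℚ) else 0) * (if q ∈ l then 1 else 0)) * (x p * x q) := by
      intro l
      rw [sq, Finset.sum_mul_sum]
      refine Finset.sum_congr rfl fun p _ => Finset.sum_congr rfl fun q _ => ?_
      ring
    rw [Finset.sum_congr rfl fun l _ => h1 l, Finset.sum_comm]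
    have h2 : ∀ p : P, ∑ l : L, ∑ q, ((if p ∈ l then (1 : ℚ) else 0) * (if q ∈ l then 1 else 0))
        * (x p * x q) = ∑ q, (1 + (if p = q then (m : ℚ) else 0)) * (x p * x q) := by
      intro p
      rw [Finset.sum_comm]
      refine Finset.sum_congr rfl fun q _ => ?_
      rw [← Finset.sum_mul, gram p q, hord]
    rw [Finset.sum_congr rfl fun p _ => h2 p]
    have h3 : ∀ p : P, ∑ q, (1 + (if p = q then (m : ℚ) else 0)) * (x p * x q)
        = x p * (∑ q, x q) + m * x p ^ 2 := by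
      intro p
      simp only [add_mul, one_mul, Finset.sum_add_distrib, ite_mul, zero_mul, Finset.sum_ite_eq,
        Finset.mem_univ, if_true, Finset.mul_sum]
      ring
    rw [Finset.sum_congr rfl fun p _ => h3 p, Finset.sum_add_distrib, ← Finset.sum_mul,
      ← Finset.mul_sum]
    ring
  obtain ⟨x, w, hxw⟩ := core (fun (l : L) (p : P) => if p ∈ l then (1 : ℚ) else 0) (m : ℚ) hN X hX
    e g
  exact sq_of_rat m x w hxw

end Pool.Agent.SC4.FP
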