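import Mathlib
import Pool.Agent.Work.MP_2d1b31_co.Base
import Pool.Agent.Work.MP_2d1b31_co.FP.Defs
import Pool.Agent.Work.MP_2d1b31_co.FP.IncF
import Pool.Agent.Work.MP_2d1b31_co.FP.Near
import Pool.Agent.Work.MP_2d1b31_co.FP.BR
import Pool.Agent.Work.MP_2d1b31_co.FP.Arith
import Pool.Agent.Work.MP_2d1b31_co.TN.Degree

set_option autoImplicit false

/-
MODULE FP/F2 (size M). Cites c4f, incF, near, sharp, bruckRyser, arith, star_iff, TN.degree_bound.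
Choose c' with max c 1 < c' < 3/2 and delta > 0 with 2 c' + 1 + 3 delta < 4. Let m0 be large from arith,
d = m0 - 2, n = ceil((d + c')^2), so d + c' <= sqrt n <= d + c' + delta for d large
((d + c' + delta)^2 >= (d + c')^2 + 1). N0 = n + d <= n + sqrt n - c' <= n + sqrt n - c.
Let N >= N0, N = n + d', d' >= d, G on Fin N, PlaneEmb G m, 5 m <= N and suppose the complement contains no
star K_{1,n}: all degrees >= d' (star_iff), d' <= sqrt n + 1 (degree_bound with y = d' - 1, E = n).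
incF: N <= m^2 + m + 1, hinc, PlaneOrder m. near with e = c' + 2 (d' >= d >= sqrt n - c' - delta) gives
|m - sqrt n| <= 20 (e + 2), so `sharp` applies for n large: d <= d' <= 2 sqrt n - m + 1 + delta, so
m <= 2 (d + c' + delta) + 1 + delta - d = d + 2 c' + 1 + 3 delta < d + 4. If m <= d + 1 then
N <= m^2 + m + 1 <= d^2 + 3 d + 3, but N >= n + d >= d^2 + (2 c' + 1) d + c'^2, contradiction for d large
(c' > 1). So m = d + 2 = m0 or m = d + 3 = m0 + 1, contradiction with bruckRyser and arith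
(m0 % 4 = 1, (m0 + 1) % 4 = 2).
-/

namespace Pool.Agent.SC4.FP

private theorem f2_num (c' δ : ℝ) (hc1 : 1 < c') (hδ : 0 < δ) (d : ℕ) (hd : 1 / (2 * δ) ≤ d) :
    (d : ℝ) + c' ≤ Real.sqrt (⌈((d : ℝ) + c') ^ 2⌉₊ : ℕ) ∧
      Real.sqrt (⌈((d : ℝ) + c') ^ 2⌉₊ : ℕ) ≤ d + c' + δ := by
  have hd0 : (0 : ℝ) ≤ d := Nat.cast_nonneg d
  constructor
  · refine Real.le_sqrt_of_sq_le (Nat.le_ceil _)
  · rw [Real.sqrt_le_left (by positivity)]
    have h1 : ((⌈((d : ℝ) + c') ^ 2⌉₊ : ℕ) : ℝ) < ((d : ℝ) + c') ^ 2 + 1 :=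
      Nat.ceil_lt_add_one (by positivity)
    have h2 : 1 ≤ 2 * δ * d := by
      rw [div_le_iff₀ (by positivity)] at hd
      linarith
    nlinarith

theorem f2 (c : ℝ) (hc : c < 3 / 2) (n0 : ℕ) : ∃ n : ℕ, n0 ≤ n ∧
    ∃ N0 : ℕ, (N0 : ℝ) ≤ (n : ℝ) + Real.sqrt n - c ∧
      ∀ N : ℕ, N0 ≤ N → ∀ G : SimpleGraph (Fin N), (∃ m, 5 * m ≤ N ∧ PlaneEmb G m) →
        (completeBipartiteGraph (Fin 1) (Fin n)).IsContained Gᶜ := by
  classical
  obtain ⟨c', hc1, hcc, hc2⟩ : ∃ c' : ℝ, 1 < c' ∧ c ≤ c' ∧ c' < 3 / 2 := by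
    refine ⟨(max c 1 + 3 / 2) / 2, ?_, ?_, ?_⟩
    · have := le_max_right c 1
      linarith
    · have h1 := le_max_left c 1
      have h2 : max c 1 < 3 / 2 := max_lt hc (by norm_num)
      linarith
    · have h2 : max c 1 < 3 / 2 := max_lt hc (by norm_num)
      linarith
  obtain ⟨δ, hδ, hδ1⟩ : ∃ δ : ℝ, 0 < δ ∧ 2 * c' + 1 + 3 * δ < 4 :=
    ⟨(3 - 2 * c') / 6, by linarith, by linarith⟩
  obtain ⟨s0, hs0⟩ := sharp (20 * (c' + 2 + 2)) δ hδ
  obtain ⟨D, hD⟩ := exists_nat_ge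
    ((n0 : ℝ) + 1 / (2 * δ) + 2 / (c' - 1) + |s0| + 100 * (c' + 2 + 2) + 1)
  obtain ⟨m0, hm0, hm4, hsq0, hsq1⟩ := arith (D + 2)
  obtain ⟨d, rfl⟩ : ∃ d, m0 = d + 2 := ⟨m0 - 2, by omega⟩
  have hDd : D ≤ d := by omega
  have hDdR : (D : ℝ) ≤ d := by exact_mod_cast hDd
  have q1 : (0 : ℝ) ≤ 1 / (2 * δ) := by positivity
  have q2 : (0 : ℝ) ≤ 2 / (c' - 1) := div_nonneg (by norm_num) (by linarith)
  have q3 := abs_nonneg s0
  have q4 := le_abs_self s0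
  have q5 : (0 : ℝ) ≤ n0 := Nat.cast_nonneg n0
  have hd1 : 1 / (2 * δ) ≤ (d : ℝ) := by linarith
  have hd2 : 2 / (c' - 1) ≤ (d : ℝ) := by linarith
  have hd2' : 2 ≤ (c' - 1) * d := by
    rw [div_le_iff₀ (by linarith)] at hd2
    linarith
  have hdpos : (1 : ℝ) ≤ d := by linarith
  obtain ⟨hs1, hs2⟩ := f2_num c' δ hc1 hδ d hd1
  have hnle : ((d : ℝ) + c') ^ 2 ≤ (⌈((d : ℝ) + c') ^ 2⌉₊ : ℕ) := Nat.le_ceil _
  generalize ⌈((d : ℝ) + c') ^ 2⌉₊ = n at hs1 hs2 hnle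
  refine ⟨n, ?_, n + d, ?_, ?_⟩
  · have h1 : (n0 : ℝ) ≤ n := by nlinarith
    exact_mod_cast h1
  · push_cast
    linarith
  intro N hN G hG
  obtain ⟨m, h5, hE⟩ := hG
  by_contra hstar
  rw [star_iff] at hstar
  push Not at hstar
  simp only [Fintype.card_fin] at hstar
  have hdN : 1 ≤ d := by exact_mod_cast hdpos
  obtain ⟨y, hy⟩ : ∃ y, N = n + (y + 1) := ⟨N - n - 1, by omega⟩
  have hyd : d ≤ y + 1 := by omega
  have hydR : (d : ℝ) ≤ y + 1 := by exact_mod_cast hyd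
  have hdeg : ∀ v, y + 1 ≤ G.degree v := fun v => by have := hstar v; omega
  haveI : Nonempty (Fin N) := ⟨⟨0, by omega⟩⟩
  have hC4 : C4Free G := c4f hE
  obtain ⟨hyn, -⟩ := TN.degree_bound G hC4 y hdeg n (by rw [Fintype.card_fin, hy])
  obtain ⟨hm2, hPO, hv, hinc⟩ := incF hE (y + 1) hdeg
  rw [Fintype.card_fin] at hv hinc
  have hys : (y : ℝ) ≤ Real.sqrt n := by
    refine Real.le_sqrt_of_sq_le ?_
    exact_mod_cast hyn
  have hNR : (N : ℝ) = (n : ℝ) + ((y + 1 : ℕ) : ℝ) := by exact_mod_cast hy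
  rw [hNR] at hinc
  have hnear := near n (y + 1) m (c' + 2) (by linarith) (by linarith)
    (by push_cast; linarith) (by push_cast; linarith) (by omega) (by omega) hinc
  have hsh := hs0 n (y + 1) m (by linarith)
    (by rw [abs_le]; constructor <;> linarith [hnear.1, hnear.2]) hinc
  push_cast at hsh
  have hmu : (m : ℝ) < (d : ℝ) + 4 := by linarith
  have hmu' : m < d + 4 := by exact_mod_cast hmu
  have hml : d + 2 ≤ m := by
    by_contra hlt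
    have h1 : m ≤ d + 1 := by omega
    have h2 : N ≤ (d + 1) ^ 2 + (d + 1) + 1 := by
      have h3 : m ^ 2 ≤ (d + 1) ^ 2 := Nat.pow_le_pow_left h1 2
      omega
    have h3 : ((N : ℕ) : ℝ) ≤ ((d : ℝ) + 1) ^ 2 + (d + 1) + 1 := by exact_mod_cast h2
    have h4 : (n : ℝ) + d ≤ N := by exact_mod_cast hN
    nlinarith
  have hm : m = d + 2 ∨ m = d + 2 + 1 := by omega
  rcases hm with rfl | rfl
  · exact hsq0 (bruckRyser _ hPO (Or.inl hm4))
  · exact hsq1 (bruckRyser _ hPO (Or.inr (by omega)))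

end Pool.Agent.SC4.FP
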