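import Mathlib
import Pool.Agent.Work.MP_2d1b31_co.FP.Defs
import Pool.Agent.Work.MP_2d1b31_co.FP.IncF
import Pool.Agent.Work.MP_2d1b31_co.FP.Near
import Pool.Agent.Work.MP_2d1b31_co.TN.Degree

set_option autoImplicit false

/-
MODULE FP/F3 (size M). Cites c4f, incF, near, numF, TN.degree_bound. Compare TP/Upper.lean (same
structure, the host theorem replaced by `near`).
s = sqrt n, q = least element of O with n <= q^2, g1 = q - s >= 0, q <= 2 s (powers of 2; n = 1: q = 2).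
G on N vertices with N <= deg v + n; C4-free (c4f). Degree bound: N <= n + s + 1 always (if N = n + d',
d' >= 2, y = d' - 1, E = n, y^2 <= n; otherwise trivial).
CASE A: g1 >= s/10^4 or s <= 10^6: C (1 + g1^2/s) >= s + 1 for C = 10^9, so N <= n + s + 1
<= n + 2 s - q + C (1 + g1^2/s).
CASE B: g1 < s/10^4, s > 10^6; suppose N > n + 2 s - q + C (1 + g1^2/s). d = N - n > s - g1 + C, d <= s + 1.
near with e = g1 + 1: s - 1 <= m <= s + 20 (g1 + 3). If m^2 < n: first alternative (r = m, incF). Otherwise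
q <= m; g = m - s satisfies g1 <= g <= 20 g1 + 60 <= s/8. numF: d <= s - g + 4 (1 + g^2/s). With
g = g1 + t: 4 g^2/s <= 8 g1^2/s + 8 t^2/s <= 8 g1^2/s + t, so d <= s - g1 + 4 + 8 g1^2/s, contradiction.
-/

namespace Pool.Agent.SC4.FP

private theorem f3_pow (O : Set ℕ) (hO : ∀ j : ℕ, 1 ≤ j → 2 ^ j ∈ O) (n q : ℕ) (hn : 1 ≤ n)
    (hmin : ∀ r ∈ O, n ≤ r ^ 2 → q ≤ r) : (q : ℝ) ≤ 2 * Real.sqrt n := by
  have hex : ∃ j : ℕ, n ≤ (2 ^ (j + 1)) ^ 2 := by
    refine ⟨n, ?_⟩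
    have h1 : n < 2 ^ n := Nat.lt_two_pow_self
    have h2 : 2 ^ n ≤ 2 ^ (n + 1) := Nat.pow_le_pow_right (by norm_num) (Nat.le_succ n)
    have h3 : 2 ^ (n + 1) ≤ (2 ^ (n + 1)) ^ 2 := Nat.le_self_pow (by norm_num) _
    omega
  classical
  have hj := Nat.find_spec hex
  have hjm := fun m => Nat.find_min hex (m := m)
  obtain ⟨j, hjd⟩ : ∃ j, j = Nat.find hex := ⟨_, rfl⟩
  rw [← hjd] at hj
  have hqj : q ≤ 2 ^ (j + 1) := hmin _ (hO (j + 1) (by omega)) hj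
  have hqjr : (q : ℝ) ≤ 2 ^ (j + 1) := by exact_mod_cast hqj
  have hs1 : 1 ≤ Real.sqrt n := by
    rw [Real.one_le_sqrt]
    exact_mod_cast hn
  rcases Nat.eq_zero_or_pos j with h0 | h0
  · rw [h0, zero_add, pow_one] at hqjr
    linarith
  · have h1 := hjm (j - 1) (by omega)
    have h2 : j - 1 + 1 = j := by omega
    rw [h2, not_le] at h1
    have h3 : ((2 : ℝ) ^ j) ^ 2 < n := by exact_mod_cast h1
    have h4 : (2 : ℝ) ^ j ≤ Real.sqrt n := Real.le_sqrt_of_sq_le h3.le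
    rw [pow_succ] at hqjr
    linarith

/-- the arithmetic of case B -/
private theorem f3_num (s q m d : ℝ) (hs : 10 ^ 6 ≤ s) (hsq : s ≤ q)
    (hgs : q - s < s / 10 ^ 4) (hm : m ≤ s + 20 * (q - s + 1 + 2)) (hqm : q ≤ m)
    (hd : d ≤ 2 * s - m + 4 * (1 + (m - s) ^ 2 / s)) :
    d ≤ 2 * s - q + 10 ^ 9 * (1 + (q - s) ^ 2 / s) := by
  have hs0 : 0 < s := lt_of_lt_of_le (by norm_num) hs
  have h4 : m - q ≤ s / 8 := by
    have e1 : 20 * (q - s) ≤ 20 * (s / 10 ^ 4) := by linarith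
    have e2 : 20 * (s / 10 ^ 4) = s * (20 / 10 ^ 4) := by ring
    have e3 : s / 8 = s * (1 / 8) := by ring
    have e4 : s * (20 / 10 ^ 4) + s * (1 / 16) ≤ s * (1 / 8) := by
      rw [← mul_add]
      exact mul_le_mul_of_nonneg_left (by norm_num) hs0.le
    have e5 : (60 : ℝ) ≤ s * (1 / 16) := by
      have : (10 : ℝ) ^ 6 * (1 / 16) ≤ s * (1 / 16) :=
        mul_le_mul_of_nonneg_right hs (by norm_num)
      have : (60 : ℝ) ≤ 10 ^ 6 * (1 / 16) := by norm_num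
      linarith
    linarith
  have ht0 : 0 ≤ m - q := by linarith
  have h5 : 8 * ((m - q) ^ 2 / s) ≤ m - q := by
    rw [← mul_div_assoc, div_le_iff₀ hs0]
    have e1 := mul_le_mul_of_nonneg_left h4 ht0
    linarith
  have h6 : (m - s) ^ 2 / s ≤ 2 * ((q - s) ^ 2 / s) + 2 * ((m - q) ^ 2 / s) := by
    rw [← mul_div_assoc, ← mul_div_assoc, ← add_div]
    refine div_le_div_of_nonneg_right ?_ hs0.le
    have e1 := sq_nonneg ((q - s) - (m - q))
    linarith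
  have h7 : 0 ≤ (q - s) ^ 2 / s := by positivity
  have h8 : 8 * ((q - s) ^ 2 / s) ≤ 10 ^ 9 * ((q - s) ^ 2 / s) :=
    mul_le_mul_of_nonneg_right (by norm_num) h7
  have h9 : (4 : ℝ) ≤ 10 ^ 9 := by norm_num
  linarith

open Classical in
theorem f3 : ∃ C : ℝ, ∀ O : Set ℕ, (∀ j : ℕ, 1 ≤ j → 2 ^ j ∈ O) → ∀ n q N : ℕ, 1 ≤ n → q ∈ O →
    n ≤ q ^ 2 → (∀ r ∈ O, n ≤ r ^ 2 → q ≤ r) →
    ∀ G : SimpleGraph (Fin N), (∃ m ∈ O, 5 * m ≤ N ∧ PlaneEmb G m) → (∀ v, N ≤ G.degree v + n) →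
      (∃ r ∈ O, r ^ 2 < n ∧ N ≤ r ^ 2 + r + 1) ∨
      (N : ℝ) ≤ n + 2 * Real.sqrt n - q + C * (1 + (q - Real.sqrt n) ^ 2 / Real.sqrt n) := by
  refine ⟨10 ^ 9, ?_⟩
  intro O hO n q N hn hqO hnq hmin G hplane hdeg
  obtain ⟨m, hmO, hm5, hemb⟩ := hplane
  by_contra hcon
  rw [not_or] at hcon
  obtain ⟨hA, hB⟩ := hcon
  rw [not_le] at hB
  obtain ⟨s, hsdef⟩ : ∃ s, s = Real.sqrt n := ⟨_, rfl⟩
  rw [← hsdef] at hB
  have hs2 : s ^ 2 = n := by
    rw [hsdef]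
    exact Real.sq_sqrt (Nat.cast_nonneg n)
  have hq2s : (q : ℝ) ≤ 2 * s := by
    rw [hsdef]
    exact f3_pow O hO n q hn hmin
  have hsq : s ≤ q := by
    rw [hsdef]
    refine Real.sqrt_le_iff.2 ⟨Nat.cast_nonneg q, ?_⟩
    exact_mod_cast hnq
  have hs1 : 1 ≤ s := by
    rw [hsdef, Real.one_le_sqrt]
    exact_mod_cast hn
  have hs0 : 0 < s := by linarith
  have hg0 : 0 ≤ ((q : ℝ) - s) ^ 2 / s := by positivity
  have hsplit : (10 : ℝ) ^ 9 * (1 + ((q : ℝ) - s) ^ 2 / s) =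
      10 ^ 9 + 10 ^ 9 * (((q : ℝ) - s) ^ 2 / s) := by ring
  have hg9 : (0 : ℝ) ≤ 10 ^ 9 * (((q : ℝ) - s) ^ 2 / s) := by positivity
  -- the number `d`
  have hNn : n < N := by
    have h1 : (n : ℝ) < N := by
      have h2 : (0 : ℝ) ≤ 10 ^ 9 := by norm_num
      linarith
    exact_mod_cast h1
  obtain ⟨d, hd⟩ : ∃ d, N = n + d := ⟨N - n, by omega⟩
  have hdr : (N : ℝ) = n + d := by
    rw [hd]
    push_cast
    ring
  have hBd : 2 * s - q + 10 ^ 9 * (1 + ((q : ℝ) - s) ^ 2 / s) < d := by linarith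
  have hd9 : (10 : ℝ) ^ 9 < d := by linarith
  have hd2 : 2 ≤ d := by
    have h1 : (2 : ℝ) < d := lt_trans (by norm_num) hd9
    have h2 : 2 < d := by exact_mod_cast h1
    exact h2.le
  obtain ⟨y, hy⟩ : ∃ y, d = y + 1 := ⟨d - 1, by omega⟩
  have hyr : (d : ℝ) = y + 1 := by
    rw [hy]
    push_cast
    ring
  have hdegd : ∀ v, d ≤ G.degree v := fun v => by
    have := hdeg v
    omega
  have hdegy : ∀ v, y + 1 ≤ G.degree v := fun v => by
    have := hdegd v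
    omega
  have hC4 : C4Free G := c4f hemb
  have hcard : Fintype.card (Fin N) = n + (y + 1) := by
    rw [Fintype.card_fin]
    omega
  have : Nonempty (Fin N) := ⟨⟨0, by omega⟩⟩
  have hy2 : y ^ 2 ≤ n := (TN.degree_bound G hC4 y hdegy n hcard).1
  have hys : (y : ℝ) ≤ s := by
    refine le_of_sq_le_sq ?_ hs0.le
    rw [hs2]
    exact_mod_cast hy2
  have hs6 : (10 : ℝ) ^ 6 ≤ s := by
    have : (10 : ℝ) ^ 6 + 1 ≤ 10 ^ 9 := by norm_num
    linarith
  rcases le_or_gt (s / 10 ^ 4) ((q : ℝ) - s) with hcase | hcase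
  · -- case A
    have h1 : s / 10 ^ 8 ≤ ((q : ℝ) - s) ^ 2 / s := by
      rw [le_div_iff₀ hs0]
      have h2 : s / 10 ^ 8 * s = (s / 10 ^ 4) ^ 2 := by ring
      rw [h2]
      exact pow_le_pow_left₀ (by positivity) hcase 2
    have h3 : (10 : ℝ) * s ≤ 10 ^ 9 * (((q : ℝ) - s) ^ 2 / s) := by
      have h4 : (10 : ℝ) ^ 9 * (s / 10 ^ 8) = 10 * s := by ring
      rw [← h4]
      exact mul_le_mul_of_nonneg_left h1 (by norm_num)
    have h6 : (1 : ℝ) ≤ 10 ^ 9 := by norm_num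
    linarith
  · -- case B
    obtain ⟨hm2, -, hi1, hi2⟩ := incF hemb d hdegd
    rw [Fintype.card_fin] at hi1
    rw [Fintype.card_fin] at hi2
    rw [hdr] at hi2
    have hde : s - ((q : ℝ) - s + 1) ≤ d := by
      have h6 : (0 : ℝ) ≤ 10 ^ 9 := by norm_num
      linarith
    have hds : (d : ℝ) ≤ s + 1 := by linarith
    have hs100 : 100 * ((q : ℝ) - s + 1 + 2) ≤ s := by
      have e1 : 100 * ((q : ℝ) - s) ≤ 100 * (s / 10 ^ 4) := by linarith
      have e2 : 100 * (s / 10 ^ 4) = s * (1 / 100) := by ring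
      have e3 : (300 : ℝ) ≤ s * (1 / 100) := by
        have h1 : (10 : ℝ) ^ 6 * (1 / 100) ≤ s * (1 / 100) :=
          mul_le_mul_of_nonneg_right hs6 (by norm_num)
        have h2 : (300 : ℝ) ≤ 10 ^ 6 * (1 / 100) := by norm_num
        linarith
      have e4 : s * (1 / 100) + s * (1 / 100) ≤ s := by
        have : s * (1 / 100) + s * (1 / 100) = s * (1 / 50) := by ring
        rw [this]
        have : s * (1 / 50) ≤ s * 1 := mul_le_mul_of_nonneg_left (by norm_num) hs0.le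
        linarith
      linarith
    obtain ⟨hm1, hm3⟩ := near n d m ((q : ℝ) - s + 1) (by linarith)
      (by rw [← hsdef]; exact hs100) (by rw [← hsdef]; exact hde) (by rw [← hsdef]; exact hds)
      (by rw [← hd]; exact hm5) (by rw [← hd]; exact hi1) hi2
    rw [← hsdef] at hm3
    rcases lt_or_ge (m ^ 2) n with hmn | hmn
    · exact hA ⟨m, hmO, hmn, hi1⟩
    · have hqm : q ≤ m := hmin m hmO hmn
      have hqmr : (q : ℝ) ≤ m := by exact_mod_cast hqm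
      have h3 := numF n d m (by rw [← hsdef]; exact hs1) (by rw [← hsdef]; linarith) hi2
      rw [← hsdef] at h3
      exact absurd (f3_num s q m d hs6 hsq hcase hm3 hqmr h3) (not_le.2 hBd)

end Pool.Agent.SC4.FP
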