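import Mathlib
import Pool.Agent.Work.MP_2d1b31_co.TP.Defs
import Pool.Agent.Work.MP_2d1b31_co.FP.Defs

set_option autoImplicit false

/-
MODULE FP/LinP (size S-M). A graph linear over a finite field with q elements is embedded in a
projective plane of order q: Mathlib's plane `ℙ K (Fin 3 → K)` (namespace Configuration.ofField; DecidableEq
K by classical), point mk (p u), line mk (l u); membership is orthogonality (ofField.mem_iff,
Projectivization.orthogonal_mk). Its order m satisfies m^2 + m + 1 = card_points = q^2 + q + 1
(cardinality of the projectivization: Projectivization.card_of_finrank or similar), so m = q.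
-/

namespace Pool.Agent.SC4.FP

open Configuration in
open scoped LinearAlgebra.Projectivization in
private theorem order_eq (K : Type) [Field K] [Fintype K] [DecidableEq K]
    (hf : Finite (ℙ K (Fin 3 → K))) :
    ProjectivePlane.order (ℙ K (Fin 3 → K)) (ℙ K (Fin 3 → K)) = Fintype.card K := by
  classical
  haveI : Fintype (ℙ K (Fin 3 → K)) := Fintype.ofFinite _
  have h1 := ProjectivePlane.card_points (ℙ K (Fin 3 → K)) (ℙ K (Fin 3 → K))
  have h2 := Projectivization.card_of_finrank K (Fin 3 → K) (n := 3) (by simp)
  rw [Nat.card_eq_fintype_card, Nat.card_eq_fintype_card] at h2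
  simp only [Finset.sum_range_succ, Finset.sum_range_zero, pow_zero, pow_one, zero_add] at h2
  rw [h2] at h1
  nlinarith [h1, sq_nonneg (ProjectivePlane.order (ℙ K (Fin 3 → K)) (ℙ K (Fin 3 → K)) + 1)]

theorem linP (K : Type) [Field K] [Fintype K] {V : Type} (G : SimpleGraph V)
    (hG : TP.LinearOver K G) : PlaneEmb G (Fintype.card K) := by
  classical
  obtain ⟨p, l, hp, hl, hpi, hli, hadj⟩ := hG
  haveI hfin : Finite (Projectivization K (Fin 3 → K)) := inferInstance
  refine ⟨Projectivization K (Fin 3 → K), Projectivization K (Fin 3 → K), Fintype.ofFinite _,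
    Fintype.ofFinite _, inferInstance, inferInstance, fun u => Projectivization.mk K (p u) (hp u),
    fun u => Projectivization.mk K (l u) (hl u), order_eq K hfin, ?_, ?_, ?_⟩
  · intro u v huv
    by_contra hne
    obtain ⟨t, ht⟩ := (Projectivization.mk_eq_mk_iff' K (p u) (p v) (hp u) (hp v)).1 huv
    exact hpi u v hne t (by rw [← ht]; rfl)
  · intro u v huv
    by_contra hne
    obtain ⟨t, ht⟩ := (Projectivization.mk_eq_mk_iff' K (l u) (l v) (hl u) (hl v)).1 huv
    refine hli u v hne t ?_
    rw [← ht]
    funext i
    simp [mul_comm]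
  · intro u v huv
    show Projectivization.mk K (p u) (hp u) ∈ Projectivization.mk K (l v) (hl v)
    rw [Configuration.ofField.mem_iff, Projectivization.orthogonal_mk]
    exact hadj u v huv

theorem planeOrder_of_isPrimePow (q : ℕ) (hq : IsPrimePow q) : PlaneOrder q := by
  classical
  obtain ⟨p, k, hp, hk, rfl⟩ := hq
  haveI : Fact p.Prime := ⟨hp.nat_prime⟩
  haveI : Fintype (GaloisField p k) := Fintype.ofFinite _
  haveI hfin : Finite (Projectivization (GaloisField p k) (Fin 3 → GaloisField p k)) :=
    inferInstance
  refine ⟨Projectivization (GaloisField p k) (Fin 3 → GaloisField p k),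
    Projectivization (GaloisField p k) (Fin 3 → GaloisField p k), Fintype.ofFinite _,
    Fintype.ofFinite _, inferInstance, inferInstance, ?_⟩
  rw [order_eq (GaloisField p k) hfin, ← Nat.card_eq_fintype_card,
    GaloisField.card p k hk.ne']

end Pool.Agent.SC4.FP
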