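import Mathlib
import Pool.Agent.Work.MP_2d1b31_co.Base
import Pool.Agent.Work.MP_2d1b31_co.FP.Defs
import Pool.Agent.Work.MP_2d1b31_co.FP.F1
import Pool.Agent.Work.MP_2d1b31_co.FP.F2
import Pool.Agent.Work.MP_2d1b31_co.FP.F3
import Pool.Agent.Work.MP_2d1b31_co.FP.LinP
import Pool.Agent.Work.MP_2d1b31_co.TP.Lower

set_option autoImplicit false

/-
MODULE FP/Main (size S-M). Assembly: f1 with O = {m | PlaneOrder m} (2 in O by
planeOrder_of_isPrimePow), f1_density, f2, f3 with O = prime powers; lower bounds from TP.lower,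
TP.lower' with K = GaloisField p e (q = p^e; Fintype.card = q), linP, c4f, c4_iff, star_iff.
In the lower bound 5 q <= N for n >= 1000: q <= 2 sqrt n (least prime power, powers of 2), N >= n + 2 sqrt n
- q - 10 >= n - 10 >= 10 sqrt n.
-/

namespace Pool.Agent.SC4.FP

private theorem main_field (q : ℕ) (hq : IsPrimePow q) :
    ∃ (K : Type) (_ : Field K) (_ : Fintype K), Fintype.card K = q := by
  obtain ⟨p, k, hp, hk, rfl⟩ := (isPrimePow_nat_iff q).1 hq
  have : Fact p.Prime := ⟨hp⟩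
  have hfin : Finite (GaloisField p k) := by
    apply Nat.finite_of_card_ne_zero
    rw [GaloisField.card p k hk.ne']
    exact pow_ne_zero _ hp.ne_zero
  let hF : Fintype (GaloisField p k) := Fintype.ofFinite _
  exact ⟨GaloisField p k, inferInstance, hF,
    (Nat.card_eq_fintype_card).symm.trans (GaloisField.card p k hk.ne')⟩

private theorem main_c4 {N m : ℕ} (G : SimpleGraph (Fin N))
    (hG : PlaneEmb G m) : ¬ (SimpleGraph.cycleGraph 4).IsContained G := by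
  rw [c4_iff, not_not]
  exact c4f hG

open Classical in
private theorem main_star {N n : ℕ} (G : SimpleGraph (Fin N)) (h : ∀ v, N ≤ G.degree v + n) :
    ¬ (completeBipartiteGraph (Fin 1) (Fin n)).IsContained Gᶜ := by
  rw [star_iff G n]
  rintro ⟨v, hv⟩
  rw [Fintype.card_fin] at hv
  have := h v
  omega

private theorem main_order {V : Type} {G : SimpleGraph V} {m : ℕ} (h : PlaneEmb G m) :
    PlaneOrder m := by
  obtain ⟨P, L, hP, hL, hM, hC, _, _, h1, _⟩ := h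
  exact ⟨P, L, hP, hL, hM, hC, h1⟩

private theorem main_pow (j : ℕ) (hj : 1 ≤ j) : IsPrimePow (2 ^ j) :=
  Nat.prime_two.isPrimePow.pow (by omega)

/-- the least prime power is at most twice the square root -/
private theorem main_bound {n q : ℕ} (hn : 1000 ≤ n)
    (hmin : ∀ r : ℕ, IsPrimePow r → n ≤ r ^ 2 → q ≤ r) : (q : ℝ) ≤ 2 * Real.sqrt n := by
  have hex : ∃ j : ℕ, n ≤ (2 ^ j) ^ 2 := by
    refine ⟨n, ?_⟩
    have h1 : n ≤ 2 ^ n := Nat.lt_two_pow_self.le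
    calc n ≤ 2 ^ n := h1
      _ ≤ (2 ^ n) ^ 2 := Nat.le_self_pow (by norm_num) _
  classical
  obtain ⟨j, hj⟩ : ∃ j, j = Nat.find hex := ⟨_, rfl⟩
  have h1 : n ≤ (2 ^ j) ^ 2 := by rw [hj]; exact Nat.find_spec hex
  have hj1 : 1 ≤ j := by
    by_contra h
    have h0 : j = 0 := by omega
    rw [h0] at h1
    norm_num at h1
    omega
  have h2 : (2 ^ (j - 1)) ^ 2 < n := by
    by_contra h
    have h3 : Nat.find hex ≤ j - 1 := Nat.find_min' hex (by omega)
    omega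
  have h3 := hmin (2 ^ j) (main_pow j hj1) h1
  have h4 : (2 : ℝ) ^ (j - 1) ≤ Real.sqrt n := by
    apply Real.le_sqrt_of_sq_le
    exact_mod_cast h2.le
  have h5 : (2 : ℝ) ^ j = 2 * 2 ^ (j - 1) := by
    rw [← pow_succ']
    congr 1
    omega
  have h6 : (q : ℝ) ≤ 2 ^ j := by exact_mod_cast h3
  linarith

open Classical in
theorem main :
    (∀ c : ℝ, ∃ R : ℝ, ∀ n : ℕ, (∀ m : ℕ, PlaneOrder m → R < |(m : ℝ) - Real.sqrt n|) →
      ∃ N0 : ℕ, (N0 : ℝ) ≤ (n : ℝ) + Real.sqrt n - c ∧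
        ∀ N : ℕ, N0 ≤ N → ∀ G : SimpleGraph (Fin N), (∃ m, 5 * m ≤ N ∧ PlaneEmb G m) →
          (completeBipartiteGraph (Fin 1) (Fin n)).IsContained Gᶜ) ∧
    (∀ c : ℝ, c < 3 / 2 → ∀ n0 : ℕ, ∃ n : ℕ, n0 ≤ n ∧
      ∃ N0 : ℕ, (N0 : ℝ) ≤ (n : ℝ) + Real.sqrt n - c ∧
        ∀ N : ℕ, N0 ≤ N → ∀ G : SimpleGraph (Fin N), (∃ m, 5 * m ≤ N ∧ PlaneEmb G m) →
          (completeBipartiteGraph (Fin 1) (Fin n)).IsContained Gᶜ) ∧
    (∃ C : ℝ, ∀ n q : ℕ, 1000 ≤ n → IsPrimePow q → n ≤ q ^ 2 →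
      (∀ r : ℕ, IsPrimePow r → n ≤ r ^ 2 → q ≤ r) →
      (∀ N : ℕ, (∀ r : ℕ, IsPrimePow r → r ^ 2 < n → r ^ 2 + r + 1 < N) →
        (n : ℝ) + 2 * Real.sqrt n - q + C * (1 + (q - Real.sqrt n) ^ 2 / Real.sqrt n) < N →
        ∀ G : SimpleGraph (Fin N), (∃ m, IsPrimePow m ∧ 5 * m ≤ N ∧ PlaneEmb G m) →
          (completeBipartiteGraph (Fin 1) (Fin n)).IsContained Gᶜ) ∧
      (∃ N : ℕ, (n : ℝ) + 2 * Real.sqrt n - q - 10 ≤ N ∧ 5 * q ≤ N ∧
        ∃ G : SimpleGraph (Fin N), PlaneEmb G q ∧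
          ¬ (SimpleGraph.cycleGraph 4).IsContained G ∧
          ¬ (completeBipartiteGraph (Fin 1) (Fin n)).IsContained Gᶜ)) := by
  refine ⟨fun c => ?_, fun c hc n0 => f2 c hc n0, ?_⟩
  · obtain ⟨R, hR⟩ := f1 c
    refine ⟨R, fun n hn => ?_⟩
    obtain ⟨N0, h1, h2⟩ := hR {m | PlaneOrder m}
      (planeOrder_of_isPrimePow 2 Nat.prime_two.isPrimePow) n hn
    refine ⟨N0, h1, fun N hN G hG => ?_⟩
    obtain ⟨m, hm, hE⟩ := hG
    exact h2 N hN G ⟨m, main_order hE, hm, hE⟩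
  · obtain ⟨C, hC⟩ := f3
    refine ⟨C, ?_⟩
    intro n q hn hq hnq hmin
    refine ⟨?_, ?_⟩
    · intro N h1 h2 G hG
      by_contra hcon
      have h3 : ∀ v, N ≤ G.degree v + n := by
        intro v
        by_contra h4
        apply hcon
        rw [star_iff G n]
        exact ⟨v, by rw [Fintype.card_fin]; omega⟩
      rcases hC {m | IsPrimePow m} (fun j hj => main_pow j hj) n q N (by omega) hq hnq hmin G hG h3
        with ⟨r, g1, g2, g3⟩ | h5
      · have := h1 r g1 g2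
        omega
      · exact absurd h2 (not_lt.2 h5)
    · obtain ⟨K, _, _, hK⟩ := main_field q hq
      obtain ⟨N, g1, G, g2, g3⟩ := TP.lower K n q hK (by omega) hnq
      have hE : PlaneEmb G q := by
        have := linP K G g2
        rwa [hK] at this
      refine ⟨N, g1, ?_, G, hE, main_c4 G hE, main_star G g3⟩
      have hb := main_bound hn hmin
      have hs : (31 : ℝ) ≤ Real.sqrt n := by
        apply Real.le_sqrt_of_sq_le
        have : (1000 : ℝ) ≤ n := by exact_mod_cast hn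
        linarith
      have hs2 : Real.sqrt n * Real.sqrt n = n := Real.mul_self_sqrt (Nat.cast_nonneg n)
      have h5 : (5 : ℝ) * q ≤ N := by nlinarith
      exact_mod_cast h5


end Pool.Agent.SC4.FP
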